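import Mathlib
import Pool.Agent.P.MP_3a8f7c_lc.Defs
import Pool.Agent.K.MP_3a8f7c_lc.C0

-- part Pool.Agent.P.MP_3a8f7c_lc.Lin
section

set_option autoImplicit false

namespace Pool.Agent.P.MP_3a8f7c_lc

open Filter Nat

/-- equal, or both large and congruent -/
def Eqv (n a b : ℕ) : Prop := a = b ∨ (n ≤ a ∧ n ≤ b ∧ a ≡ b [MOD n !])

lemma Eqv.refl (n a : ℕ) : Eqv n a a := Or.inl rfl

lemma Eqv.symm {n a b : ℕ} (h : Eqv n a b) : Eqv n b a := by
  rcases h with rfl | ⟨h1, h2, h3⟩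
  · exact Or.inl rfl
  · exact Or.inr ⟨h2, h1, h3.symm⟩

lemma Eqv.trans {n a b c : ℕ} (h : Eqv n a b) (h' : Eqv n b c) : Eqv n a c := by
  rcases h with rfl | ⟨h1, h2, h3⟩
  · exact h'
  · rcases h' with rfl | ⟨h4, h5, h6⟩
    · exact Or.inr ⟨h1, h2, h3⟩
    · exact Or.inr ⟨h1, h5, h3.trans h6⟩

lemma Eqv.mono {n m a b : ℕ} (hnm : n ≤ m) (h : Eqv m a b) : Eqv n a b := by
  rcases h with rfl | ⟨h1, h2, h3⟩
  · exact Or.inl rfl
  · exact Or.inr ⟨hnm.trans h1, hnm.trans h2, h3.of_dvd (factorial_dvd_factorial hnm)⟩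

lemma Eqv.modEq {n a b : ℕ} (h : Eqv n a b) : a ≡ b [MOD n !] := by
  rcases h with rfl | ⟨_, _, h3⟩
  · rfl
  · exact h3

lemma Eqv.add {n a b c d : ℕ} (h : Eqv n a b) (h' : Eqv n c d) : Eqv n (a + c) (b + d) := by
  rcases h with rfl | ⟨h1, h2, h3⟩
  · rcases h' with rfl | ⟨h4, h5, h6⟩
    · exact Or.inl rfl
    · exact Or.inr ⟨by omega, by omega, h6.add_left a⟩
  · exact Or.inr ⟨by omega, by omega, h3.add h'.modEq⟩

lemma Eqv.sum {ι : Type} (n : ℕ) (t : Finset ι) (f g : ι → ℕ) (h : ∀ i, Eqv n (f i) (g i)) :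
    Eqv n (∑ i ∈ t, f i) (∑ i ∈ t, g i) := by
  classical
  induction t using Finset.induction_on with
  | empty => exact Or.inl rfl
  | insert a t ha ih => rw [Finset.sum_insert ha, Finset.sum_insert ha]; exact (h a).add ih

lemma Eqv.eq_of_lt {n a b : ℕ} (h : Eqv n a b) (ha : a < n) : a = b := by
  rcases h with rfl | ⟨h1, _, _⟩
  · rfl
  · omega

lemma Eqv.le {n a b : ℕ} (h : Eqv n a b) (ha : n ≤ a) : n ≤ b := by
  rcases h with rfl | ⟨_, h1, _⟩
  · exact ha
  · exact h1

lemma exists_rep (n a : ℕ) : ∃ r, r < n + n ! ∧ Eqv n a r := by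
  by_cases h : a < n
  · exact ⟨a, by omega, Or.inl rfl⟩
  · obtain ⟨d, rfl⟩ := Nat.exists_eq_add_of_le (not_lt.mp h)
    refine ⟨n + d % n !, by have := Nat.mod_lt d (factorial_pos n); omega,
      Or.inr ⟨by omega, by omega, ?_⟩⟩
    exact (Nat.mod_modEq d _).symm.add_left n

lemma eqv_of_semilinear {Y : Set ℕ} (hY : IsSemilinearSet Y) :
    ∀ᶠ n in atTop, ∀ x x', Eqv n x x' → x ∈ Y → x' ∈ Y := by
  obtain ⟨k, p, hp, h⟩ := Nat.isSemilinearSet_iff_ultimately_periodic.mp hY
  have h2 : ∀ t x, k ≤ x → (x ∈ Y ↔ x + p * t ∈ Y) := by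
    intro t
    induction t with
    | zero => simp
    | succ t ih =>
      intro x hx
      rw [ih x hx, h _ (by omega), show x + p * t + p = x + p * (t + 1) by ring]
  filter_upwards [eventually_ge_atTop (max k p)] with n hn x x' hxx
  rcases hxx with rfl | ⟨h1, h3, h4⟩
  · exact id
  have h5 : x ≡ x' [MOD p] := h4.of_dvd (dvd_factorial hp (le_of_max_le_right hn))
  have hk : k ≤ n := le_of_max_le_left hn
  rcases le_total x x' with hle | hle
  · obtain ⟨t, ht⟩ := (Nat.modEq_iff_dvd' hle).mp h5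
    have : x' = x + p * t := by omega
    rw [this]
    exact (h2 t x (by omega)).mp
  · obtain ⟨t, ht⟩ := (Nat.modEq_iff_dvd' hle).mp h5.symm
    have : x = x' + p * t := by omega
    rw [this]
    exact (h2 t x' (by omega)).mpr

lemma semilinear_eqv (m r : ℕ) : IsSemilinearSet {s | Eqv m s r} := by
  rw [Nat.isSemilinearSet_iff_ultimately_periodic]
  refine ⟨m, m !, factorial_pos m, fun x hx => ?_⟩
  have : Eqv m x (x + m !) := Or.inr ⟨hx, by omega, by simp [Nat.ModEq]⟩
  exact ⟨fun h => this.symm.trans h, fun h => this.trans h⟩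

lemma transfer {R : Set (ℕ × ℕ)} (hR : IsSemilinearSet R) (m : ℕ) :
    ∀ᶠ n in atTop, ∀ x x' s, Eqv n x x' → (x, s) ∈ R → ∃ s', (x', s') ∈ R ∧ Eqv m s s' := by
  have h1 : ∀ r ∈ Set.Iio (m + m !), ∀ᶠ n in atTop, ∀ x x', Eqv n x x' →
      x ∈ {x | ∃ s, Eqv m s r ∧ (x, s) ∈ R} → x' ∈ {x | ∃ s, Eqv m s r ∧ (x, s) ∈ R} := by
    intro r _
    apply eqv_of_semilinear
    have := (hR.inter ((semilinear_eqv m r).preimage (AddMonoidHom.snd ℕ ℕ))).image
      (AddMonoidHom.fst ℕ ℕ)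
    convert this using 1
    ext x
    constructor
    · rintro ⟨s, h1, h2⟩
      exact ⟨(x, s), ⟨h2, h1⟩, rfl⟩
    · rintro ⟨⟨y, s⟩, ⟨h2, h1⟩, rfl⟩
      exact ⟨s, h1, h2⟩
  filter_upwards [(eventually_all_finite (Set.finite_Iio (m + m !))).mpr h1] with n hn x x' s hx hs
  obtain ⟨r, hr, hsr⟩ := exists_rep m s
  obtain ⟨s', h2, h3⟩ := hn r hr x x' hx ⟨s, hsr, hs⟩
  exact ⟨s', h3, hsr.trans h2.symm⟩

/-- a period in the weight direction -/
def Free (D : ℕ) (R : Set (ℕ × ℕ)) : Prop :=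
  ∃ q, 0 < q ∧ q ≤ D ∧ ∀ x s, (x, s) ∈ R → (x, s + q) ∈ R

/-- linear bound on the weight -/
def Bnd (D : ℕ) (R : Set (ℕ × ℕ)) : Prop := ∀ x s, (x, s) ∈ R → s ≤ D * x + D

/-- long progressions of weights -/
def Thick (D : ℕ) (R : Set (ℕ × ℕ)) : Prop :=
  ∀ x s, (x, s) ∈ R → D ≤ x → ∃ d, 0 < d ∧ d ≤ D ∧
    ((∀ j, j * D ≤ x → (x, s + j * d) ∈ R) ∨ (∀ j, j * D ≤ x → ∃ s', (x, s') ∈ R ∧ s' + j * d = s))

/-- constant weight -/
def Flat (R : Set (ℕ × ℕ)) : Prop := ∀ x s x' s', (x, s) ∈ R → (x', s') ∈ R → s = s'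

/-- a line of positive slope -/
def Line (D : ℕ) (R : Set (ℕ × ℕ)) : Prop :=
  ∃ (p q : ℕ) (e : ℤ), 0 < p ∧ p ≤ D ∧ 0 < q ∧ q ≤ D ∧ |e| ≤ D ∧
    (∀ x s, (x, s) ∈ R → (p : ℤ) * s = q * x + e) ∧ ∀ x s, (x, s) ∈ R → (x + p, s + q) ∈ R

lemma trichotomy {R : Set (ℕ × ℕ)} (hR : IsLinearSet R) :
    ∀ᶠ D in atTop, Free D R ∨ (Bnd D R ∧ (Thick D R ∨ Flat R ∨ Line D R)) := by
  classical
  obtain ⟨a, N, f, hRdef⟩ := isLinearSet_iff_exists_fin_addMonoidHom.mp hR
  let p : Fin N → ℕ := fun i => (f (Pi.single i 1)).1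
  let q : Fin N → ℕ := fun i => (f (Pi.single i 1)).2
  have hf : ∀ n : Fin N → ℕ, f n = (∑ i, n i * p i, ∑ i, n i * q i) := by
    intro n
    have : n = ∑ i, n i • (Pi.single i 1 : Fin N → ℕ) := by
      ext j; simp [Finset.sum_apply, Pi.single_apply]
    conv_lhs => rw [this, map_sum]
    ext
    · simp only [Prod.fst_sum, map_nsmul, Prod.smul_fst, smul_eq_mul, p]
    · simp only [Prod.snd_sum, map_nsmul, Prod.smul_snd, smul_eq_mul, q]
  have hmem : ∀ x s, (x, s) ∈ R ↔ ∃ n : Fin N → ℕ,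
      x = a.1 + ∑ i, n i * p i ∧ s = a.2 + ∑ i, n i * q i := by
    intro x s
    rw [hRdef, Set.mem_vadd_set]
    constructor
    · rintro ⟨_, ⟨n, rfl⟩, h⟩
      rw [hf, vadd_eq_add] at h
      exact ⟨n, (congrArg Prod.fst h).symm, (congrArg Prod.snd h).symm⟩
    · rintro ⟨n, rfl, rfl⟩
      exact ⟨_, ⟨n, rfl⟩, by rw [hf, vadd_eq_add]; rfl⟩
  have hadd : ∀ x s i t, (x, s) ∈ R → (x + t * p i, s + t * q i) ∈ R := by
    intro x s i t h
    obtain ⟨n, rfl, rfl⟩ := (hmem _ _).mp h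
    refine (hmem _ _).mpr ⟨n + Pi.single i t, ?_, ?_⟩
    · simp [add_mul, Finset.sum_add_distrib, Pi.single_apply, add_assoc]
    · simp [add_mul, Finset.sum_add_distrib, Pi.single_apply, add_assoc]
  obtain ⟨P, hP1, hPa1, hPa2, hPp, hPq⟩ : ∃ P, 1 ≤ P ∧ a.1 ≤ P ∧ a.2 ≤ P ∧ (∀ i, p i ≤ P) ∧
      ∀ i, q i ≤ P := by
    refine ⟨1 + a.1 + a.2 + ∑ i, p i + ∑ i, q i, by omega, by omega, by omega, fun i => ?_,
      fun i => ?_⟩
    · have := Finset.single_le_sum (f := p) (fun _ _ => Nat.zero_le _) (Finset.mem_univ i)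
      omega
    · have := Finset.single_le_sum (f := q) (fun _ _ => Nat.zero_le _) (Finset.mem_univ i)
      omega
  filter_upwards [eventually_ge_atTop (2 * N * P * P + 2 * P * P + 2 * P)] with D hD
  have hPP : P ≤ P * P := Nat.le_mul_self P
  have hD1 : 2 * P * P ≤ D := by omega
  have hD2 : 2 * P ≤ D := by omega
  have hD3 : 2 * N * P * P ≤ D := by omega
  by_cases hfree : ∃ i, p i = 0 ∧ 0 < q i
  · obtain ⟨i, h1, h2⟩ := hfree
    left
    refine ⟨q i, h2, by have := hPq i; omega, fun x s h => ?_⟩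
    simpa [h1] using hadd x s i 1 h
  right
  push Not at hfree
  have hqp : ∀ i, q i ≤ P * p i := by
    intro i
    rcases Nat.eq_zero_or_pos (p i) with h | h
    · have := hfree i h; omega
    · exact (hPq i).trans (Nat.le_mul_of_pos_right _ h)
  refine ⟨fun x s h => ?_, ?_⟩
  · obtain ⟨n, rfl, rfl⟩ := (hmem _ _).mp h
    have h1 : ∑ i, n i * q i ≤ P * ∑ i, n i * p i := by
      rw [Finset.mul_sum]
      refine Finset.sum_le_sum fun i _ => ?_
      have := Nat.mul_le_mul_left (n i) (hqp i)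
      nlinarith
    have h2 : P * ∑ i, n i * p i ≤ D * (a.1 + ∑ i, n i * p i) :=
      Nat.mul_le_mul (by omega) (by omega)
    omega
  by_cases hpar : ∀ i i', p i * q i' = p i' * q i
  · right
    by_cases hq0 : ∀ i, q i = 0
    · left
      intro x s x' s' h h'
      obtain ⟨n, -, rfl⟩ := (hmem _ _).mp h
      obtain ⟨n', -, rfl⟩ := (hmem _ _).mp h'
      simp [hq0]
    · right
      push Not at hq0
      obtain ⟨i, hi⟩ := hq0
      have hpi : p i ≠ 0 := fun h => by have := hfree i h; omega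
      refine ⟨p i, q i, (p i : ℤ) * a.2 - q i * a.1, by omega, by have := hPp i; omega, by omega,
        by have := hPq i; omega, ?_, fun x s h => ?_, fun x s h => ?_⟩
      · have h1 : p i * a.2 ≤ P * P := Nat.mul_le_mul (hPp i) hPa2
        have h2 : q i * a.1 ≤ P * P := Nat.mul_le_mul (hPq i) hPa1
        have h3 : P * P ≤ D := by nlinarith
        rw [abs_le]
        zify at h1 h2 h3
        have h4 : (0 : ℤ) ≤ (p i : ℤ) * a.2 := by positivity
        have h5 : (0 : ℤ) ≤ (q i : ℤ) * a.1 := by positivity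
        constructor <;> linarith
      · obtain ⟨n, rfl, rfl⟩ := (hmem _ _).mp h
        have : p i * ∑ j, n j * q j = q i * ∑ j, n j * p j := by
          rw [Finset.mul_sum, Finset.mul_sum]
          refine Finset.sum_congr rfl fun j _ => ?_
          have := hpar i j
          calc p i * (n j * q j) = n j * (p i * q j) := by ring
            _ = n j * (p j * q i) := by rw [this]
            _ = _ := by ring
        zify at this
        push_cast
        linear_combination this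
      · simpa using hadd x s i 1 h
  · left
    push Not at hpar
    obtain ⟨i1, i2, h12⟩ := hpar
    intro x s h hx
    obtain ⟨n, hxn, hsn⟩ := (hmem _ _).mp h
    have hN : (Finset.univ : Finset (Fin N)).Nonempty := ⟨i1, Finset.mem_univ _⟩
    obtain ⟨i0, -, hi0⟩ := Finset.exists_max_image Finset.univ (fun i => n i * p i) hN
    have hsum : ∑ i, n i * p i ≤ N * (n i0 * p i0) := by
      have := Finset.sum_le_card_nsmul Finset.univ (fun i => n i * p i) (n i0 * p i0) hi0
      simpa using this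
    have hx2 : x ≤ 2 * (N * (n i0 * p i0)) := by omega
    have hp0 : 0 < p i0 := by
      rcases Nat.eq_zero_or_pos (p i0) with h0 | h0
      · rw [h0] at hx2; simp at hx2; omega
      · exact h0
    obtain ⟨i', hi'⟩ : ∃ i', p i0 * q i' ≠ p i' * q i0 := by
      by_contra hcon
      push Not at hcon
      apply h12
      apply Nat.eq_of_mul_eq_mul_left hp0
      have e1 := hcon i1
      have e2 := hcon i2
      calc p i0 * (p i1 * q i2) = p i1 * (p i0 * q i2) := by ring
        _ = p i1 * (p i2 * q i0) := by rw [e2]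
        _ = p i2 * (p i1 * q i0) := by ring
        _ = p i2 * (p i0 * q i1) := by rw [e1]
        _ = _ := by ring
    have hexch : ∀ j, j * D ≤ x → ∃ s0, s = s0 + j * (p i' * q i0) ∧
        (x, s0 + j * (p i0 * q i')) ∈ R := by
      intro j hj
      have hjn : j * p i' ≤ n i0 := by
        have hN0 : 0 < N := Fin.pos i1
        have h1 : j * (2 * N * P * P) ≤ 2 * (N * (n i0 * P)) := by
          calc j * (2 * N * P * P) ≤ j * D := Nat.mul_le_mul_left _ hD3
            _ ≤ x := hj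
            _ ≤ 2 * (N * (n i0 * p i0)) := hx2
            _ ≤ _ := by have := hPp i0; gcongr
        have h2 : (2 * N * P) * (j * P) ≤ (2 * N * P) * n i0 := by nlinarith
        have h3 : j * P ≤ n i0 := Nat.le_of_mul_le_mul_left h2 (by positivity)
        exact (Nat.mul_le_mul_left j (hPp i')).trans h3
      obtain ⟨r, hr⟩ := Nat.exists_eq_add_of_le hjn
      let m : Fin N → ℕ := Function.update n i0 r
      have hnm : n = m + Pi.single i0 (j * p i') := by
        ext i
        by_cases hi : i = i0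
        · subst hi; simp [m, hr, add_comm]
        · simp [m, hi]
      have hs1 : ∑ i, n i * p i = ∑ i, m i * p i + j * p i' * p i0 := by
        conv_lhs => rw [hnm]
        simp [add_mul, Finset.sum_add_distrib, Pi.single_apply]
      have hs2 : ∑ i, n i * q i = ∑ i, m i * q i + j * p i' * q i0 := by
        conv_lhs => rw [hnm]
        simp [add_mul, Finset.sum_add_distrib, Pi.single_apply]
      refine ⟨a.2 + ∑ i, m i * q i, by rw [hsn, hs2]; ring, ?_⟩
      have := hadd _ _ i' (j * p i0) ((hmem _ _).mpr ⟨m, rfl, rfl⟩)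
      convert this using 2
      · rw [hxn, hs1]; ring
      · ring
    have b1 : p i0 * q i' ≤ P * P := Nat.mul_le_mul (hPp _) (hPq _)
    have b2 : p i' * q i0 ≤ P * P := Nat.mul_le_mul (hPp _) (hPq _)
    have b3 : P * P ≤ D := by nlinarith
    rcases lt_or_gt_of_ne hi' with hlt | hlt
    · obtain ⟨d, hd⟩ := Nat.exists_eq_add_of_lt hlt
      refine ⟨d + 1, by omega, by omega, Or.inr fun j hj => ?_⟩
      obtain ⟨s0, h1, h2⟩ := hexch j hj
      exact ⟨_, h2, by rw [h1, hd]; ring⟩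
    · obtain ⟨d, hd⟩ := Nat.exists_eq_add_of_lt hlt
      refine ⟨d + 1, by omega, by omega, Or.inl fun j hj => ?_⟩
      obtain ⟨s0, h1, h2⟩ := hexch j hj
      convert h2 using 2
      rw [h1, hd]; ring

end Pool.Agent.P.MP_3a8f7c_lc
end

-- part Pool.Agent.P.MP_3a8f7c_lc.SetS
section

set_option autoImplicit false

namespace Pool.Agent.P.MP_3a8f7c_lc

open Nat

/-- the residue class modulo `n !` that is zero on the even part and one on the odd part -/
def ZZ (n s : ℕ) : Prop :=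
  (∀ a, 2 ^ a ∣ n ! → 2 ^ a ∣ s) ∧ ∀ m, Odd m → m ∣ n ! → s ≡ 1 [MOD m]

/-- thresholds -/
def TT (n : ℕ) : ℕ := 2 * n * n ! + n

/-- the generating set of lengths -/
def SS : Set ℕ := {s | ∀ n, TT n ≤ s → ZZ n s}

lemma ZZ.mono {n m s : ℕ} (hnm : n ≤ m) (h : ZZ m s) : ZZ n s :=
  ⟨fun a ha => h.1 a (ha.trans (factorial_dvd_factorial hnm)),
    fun k hk hd => h.2 k hk (hd.trans (factorial_dvd_factorial hnm))⟩

lemma ZZ.inv {n s s' : ℕ} (h : ZZ n s) (hs : s ≡ s' [MOD n !]) : ZZ n s' :=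
  ⟨fun a ha => ((hs.of_dvd ha).dvd_iff dvd_rfl).mp (h.1 a ha),
    fun k hk hd => (hs.of_dvd hd).symm.trans (h.2 k hk hd)⟩

lemma ZZ.uniq {n s s' : ℕ} (h : ZZ n s) (h' : ZZ n s') : s ≡ s' [MOD n !] := by
  obtain ⟨a, m, hm, e⟩ := Nat.exists_eq_two_pow_mul_odd (factorial_ne_zero n)
  have hc : Nat.Coprime (2 ^ a) m := Nat.Coprime.pow_left _ (Nat.coprime_two_left.mpr hm)
  have h1 : 2 ^ a ∣ n ! := e ▸ dvd_mul_right _ _
  have h2 : m ∣ n ! := e ▸ dvd_mul_left _ _
  rw [e, ← Nat.modEq_and_modEq_iff_modEq_mul hc]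
  exact ⟨(Nat.modEq_zero_iff_dvd.mpr (h.1 a h1)).trans
    (Nat.modEq_zero_iff_dvd.mpr (h'.1 a h1)).symm, (h.2 m hm h2).trans (h'.2 m hm h2).symm⟩

lemma exists_ZZ (n : ℕ) : ∃ s, ZZ n s := by
  obtain ⟨a, m, hm, e⟩ := Nat.exists_eq_two_pow_mul_odd (factorial_ne_zero n)
  have hc : Nat.Coprime (2 ^ a) m := Nat.Coprime.pow_left _ (Nat.coprime_two_left.mpr hm)
  obtain ⟨s, h1, h2⟩ := Nat.chineseRemainder hc 0 1
  refine ⟨s, fun b hb => ?_, fun k hk hd => ?_⟩
  · rw [e] at hb
    have hc' : Nat.Coprime (2 ^ b) m := Nat.Coprime.pow_left _ (Nat.coprime_two_left.mpr hm)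
    exact (hc'.dvd_of_dvd_mul_right hb).trans (Nat.modEq_zero_iff_dvd.mp h1)
  · rw [e] at hd
    have hc' : Nat.Coprime k (2 ^ a) :=
      (Nat.Coprime.pow_left _ (Nat.coprime_two_left.mpr hk)).symm
    exact h2.of_dvd (hc'.dvd_of_dvd_mul_left hd)

lemma ZZ_irr (B : ℕ) : ∃ n, ∀ s s', ZZ n s → ZZ n s' → ∀ (a b : ℕ) (E : ℤ), a ≤ B → b ≤ B →
    |E| ≤ B → (a : ℤ) * s = b * s' + E → a = b ∧ E = 0 := by
  refine ⟨2 ^ B + (2 * B + 1), fun s s' h h' a b E ha hb hE e => ?_⟩
  have hp : 0 < 2 ^ B := by positivity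
  have d1 : 2 ^ B ∣ (2 ^ B + (2 * B + 1))! := dvd_factorial hp (by omega)
  have d2 : 2 * B + 1 ∣ (2 ^ B + (2 * B + 1))! := dvd_factorial (by omega) (by omega)
  have hE0 : E = 0 := by
    have k1 : ((2 ^ B : ℕ) : ℤ) ∣ s := Int.natCast_dvd_natCast.mpr (h.1 B d1)
    have k2 : ((2 ^ B : ℕ) : ℤ) ∣ s' := Int.natCast_dvd_natCast.mpr (h'.1 B d1)
    have k3 : ((2 ^ B : ℕ) : ℤ) ∣ E := by
      have : E = a * s - b * s' := by linarith
      rw [this]
      exact dvd_sub (k1.mul_left _) (k2.mul_left _)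
    apply Int.eq_zero_of_abs_lt_dvd k3
    have : B < 2 ^ B := Nat.lt_two_pow_self
    omega
  refine ⟨?_, hE0⟩
  subst hE0
  have e' : a * s = b * s' := by
    rw [add_zero] at e
    exact_mod_cast e
  have k1 := (h.2 _ (odd_two_mul_add_one B) d2).mul_left a
  have k2 := (h'.2 _ (odd_two_mul_add_one B) d2).mul_left b
  rw [e', mul_one] at k1
  rw [mul_one] at k2
  exact (k1.symm.trans k2).eq_of_lt_of_lt (by omega) (by omega)

lemma exists_modEq_Ico (M t s0 : ℕ) (hM : 0 < M) : ∃ s, t ≤ s ∧ s < t + M ∧ s0 ≡ s [MOD M] := by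
  obtain ⟨M, rfl⟩ : ∃ M', M = M' + 1 := ⟨M - 1, by omega⟩
  refine ⟨t + (s0 + M * t) % (M + 1), by omega, by have := Nat.mod_lt (s0 + M * t) (Nat.succ_pos M); simp only [Nat.succ_eq_add_one] at this; omega, ?_⟩
  have h1 : t + (s0 + M * t) % (M + 1) ≡ t + (s0 + M * t) [MOD M + 1] :=
    (Nat.mod_modEq _ _).add_left t
  have h2 : t + (s0 + M * t) = s0 + (M + 1) * t := by ring
  rw [h2] at h1
  exact (h1.trans (by simp [Nat.ModEq])).symm

lemma le_TT (n : ℕ) : n ≤ TT n := by unfold TT; omega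

lemma TT_mono {n m : ℕ} (h : n ≤ m) : TT n ≤ TT m := by
  unfold TT
  have := factorial_le h
  gcongr

lemma SS_dense (m C : ℕ) : ∃ N, ∀ lo L, N ≤ L → lo + L ≤ C * L →
    ∃ s ∈ SS, lo ≤ s ∧ s ≤ lo + L ∧ m ≤ s := by
  classical
  refine ⟨TT (C + 1) + 2 * m, fun lo L hL hC => ?_⟩
  set j := Nat.findGreatest (fun j => TT j ≤ lo + L) (lo + L) with hj
  have hmax : ∀ n, TT n ≤ lo + L → n ≤ j := fun n hn =>
    Nat.le_findGreatest ((le_TT n).trans hn) hn
  have hCj : C + 1 ≤ j := hmax _ (by omega)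
  have hTj : TT j ≤ lo + L :=
    Nat.findGreatest_spec (P := fun j => TT j ≤ lo + L) (Nat.zero_le _) (by simp [TT])
  have hfac : 2 * j ! ≤ L := by
    have h1 : j * (2 * j !) ≤ j * L := by
      have : C * L ≤ j * L := Nat.mul_le_mul_right _ (by omega)
      unfold TT at hTj
      nlinarith
    exact Nat.le_of_mul_le_mul_left h1 (by omega)
  obtain ⟨s0, hs0⟩ := exists_ZZ j
  obtain ⟨s, h1, h2, h3⟩ := exists_modEq_Ico (j !) (lo + L - j !) s0 (factorial_pos j)
  refine ⟨s, fun n hn => (hs0.inv h3).mono (hmax n (by omega)), by omega, by omega, by omega⟩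

lemma SS_large (m : ℕ) : ∃ s ∈ SS, m ≤ s := by
  obtain ⟨N, hN⟩ := SS_dense m 1
  obtain ⟨s, hs, -, -, h⟩ := hN 0 N le_rfl (by omega)
  exact ⟨s, hs, h⟩

end Pool.Agent.P.MP_3a8f7c_lc
end

-- part Pool.Agent.P.MP_3a8f7c_lc.Core
section

set_option autoImplicit false

namespace Pool.Agent.P.MP_3a8f7c_lc

open Filter Nat Function

variable {ι : Type} [Fintype ι] [DecidableEq ι]

/-- the set of exponent vectors given by a family of components -/
def KK (𝒞 : Set (ι → Set (ℕ × ℕ))) : Set (ι → ℕ) :=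
  {x | ∃ c ∈ 𝒞, ∃ σ : ι → ℕ, (∀ l, (x l, σ l) ∈ c l) ∧ ∑ l, σ l ∈ SS}

/-- a progression on which the set looks like the generating set -/
def Gen (K : Set (ι → ℕ)) : Prop :=
  ∃ (x : ι → ℕ) (l : ι) (P Q s N : ℕ), x ∈ K ∧
    (∀ t, update x l (x l + t * P) ∈ K ↔ s + t * Q ∈ SS) ∧
    ∀ σ ∈ SS, N ≤ σ → ∃ t, σ = s + t * Q

lemma sum_upd (σ : ι → ℕ) (l : ι) (v : ℕ) : ∑ i, update σ l v i + σ l = ∑ i, σ i + v := by
  rw [Finset.sum_update_of_mem (Finset.mem_univ l),
    ← Finset.add_sum_erase Finset.univ σ (Finset.mem_univ l), Finset.sdiff_singleton_eq_erase]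
  ring

lemma wit_update {c : ι → Set (ℕ × ℕ)} {x σ : ι → ℕ} (h : ∀ l, (x l, σ l) ∈ c l) {l : ι}
    {v w : ℕ} (hv : (v, w) ∈ c l) : ∀ i, (update x l v i, update σ l w i) ∈ c i := by
  intro i
  by_cases hi : i = l
  · subst hi; simpa using hv
  · simpa [hi] using h i

lemma wit_update' {c : ι → Set (ℕ × ℕ)} {x σ : ι → ℕ} (h : ∀ l, (x l, σ l) ∈ c l) {l : ι}
    {w : ℕ} (hv : (x l, w) ∈ c l) : ∀ i, (x i, update σ l w i) ∈ c i := by
  simpa using wit_update h hv

omit [DecidableEq ι] in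
lemma transfer_all {𝒞 : Set (ι → Set (ℕ × ℕ))} (hf : 𝒞.Finite)
    (hl : ∀ c ∈ 𝒞, ∀ l, IsLinearSet (c l)) (m : ℕ) :
    ∀ᶠ n in atTop, ∀ c ∈ 𝒞, ∀ x x' σ : ι → ℕ, (∀ l, Eqv n (x l) (x' l)) →
      (∀ l, (x l, σ l) ∈ c l) →
      ∃ σ' : ι → ℕ, (∀ l, (x' l, σ' l) ∈ c l) ∧ Eqv m (∑ l, σ l) (∑ l, σ' l) := by
  rw [eventually_all_finite hf]
  intro c hc
  filter_upwards [eventually_all.mpr fun l => transfer (hl c hc l).isSemilinearSet m]
    with n hn x x' σ hx hσ
  choose σ' h1 h2 using fun l => hn l (x l) (x' l) (σ l) (hx l) (hσ l)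
  exact ⟨σ', h1, Eqv.sum m _ _ _ h2⟩

lemma free_case {𝒞 : Set (ι → Set (ℕ × ℕ))} {D : ℕ} {c : ι → Set (ℕ × ℕ)} (hc : c ∈ 𝒞)
    {x σ : ι → ℕ} (hσ : ∀ l, (x l, σ l) ∈ c l) (hZ : ZZ D (∑ l, σ l)) {l : ι}
    (hfree : Free D (c l)) : x ∈ KK 𝒞 := by
  obtain ⟨q, hq, hqD, h⟩ := hfree
  have h2 : ∀ t x s, (x, s) ∈ c l → (x, s + q * t) ∈ c l := by
    intro t x s hs
    induction t with
    | zero => simpa using hs
    | succ t ih => rw [mul_add, mul_one, ← add_assoc]; exact h _ _ ih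
  obtain ⟨s, hs, hle⟩ := SS_large (TT D + ∑ l, σ l)
  have h3 : ∑ l, σ l ≡ s [MOD q] := (hZ.uniq (hs D (by omega))).of_dvd (dvd_factorial hq hqD)
  obtain ⟨t, ht⟩ := (Nat.modEq_iff_dvd' (by omega)).mp h3
  refine ⟨c, hc, update σ l (σ l + q * t), wit_update' hσ (h2 t _ _ (hσ l)), ?_⟩
  have := sum_upd σ l (σ l + q * t)
  have e : ∑ i, update σ l (σ l + q * t) i = s := by omega
  rw [e]; exact hs

lemma thick_case (D C : ℕ) (hD : 0 < D) : ∃ N, ∀ (𝒞 : Set (ι → Set (ℕ × ℕ)))
    (c : ι → Set (ℕ × ℕ)) (_ : c ∈ 𝒞) (x σ : ι → ℕ) (_ : ∀ l, (x l, σ l) ∈ c l)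
    (_ : ZZ D (∑ l, σ l)) (l : ι) (_ : Thick D (c l)) (_ : N ≤ x l) (_ : ∑ l, σ l ≤ C * x l),
      x ∈ KK 𝒞 := by
  obtain ⟨N, hN⟩ := SS_dense (TT D) (2 * D * C + 1)
  refine ⟨D * N + D, fun 𝒞 c hc x σ hσ hZ l hth hx hC => ?_⟩
  obtain ⟨d, hd, hdD, h⟩ := hth _ _ (hσ l) (by omega)
  set J := x l / D with hJ
  have hJ1 : J * D ≤ x l := Nat.div_mul_le_self _ _
  have hJ2 : x l < D * (J + 1) := Nat.lt_mul_div_succ _ hD
  have hJN : N + 1 ≤ J := by
    rw [hJ, Nat.le_div_iff_mul_le hD]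
    nlinarith
  have hJd : J ≤ J * d := Nat.le_mul_of_pos_right _ hd
  have hx2 : x l ≤ 2 * D * (J * d) := by nlinarith
  have hsum : ∑ l, σ l ≤ 2 * D * C * (J * d) := by
    calc ∑ l, σ l ≤ C * x l := hC
      _ ≤ C * (2 * D * (J * d)) := Nat.mul_le_mul_left _ hx2
      _ = _ := by ring
  rcases h with h | h
  · obtain ⟨s, hs, h1, h2, h3⟩ := hN (∑ l, σ l) (J * d) (by omega) (by nlinarith)
    have h4 : ∑ l, σ l ≡ s [MOD d] := (hZ.uniq (hs D h3)).of_dvd (dvd_factorial hd hdD)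
    obtain ⟨t, ht⟩ := (Nat.modEq_iff_dvd' h1).mp h4
    have htJ : t ≤ J := by
      have : d * t ≤ d * J := by rw [mul_comm d J]; omega
      exact Nat.le_of_mul_le_mul_left this hd
    refine ⟨c, hc, update σ l (σ l + t * d),
      wit_update' hσ (h t ((Nat.mul_le_mul_right D htJ).trans hJ1)), ?_⟩
    have := sum_upd σ l (σ l + t * d)
    have e : ∑ i, update σ l (σ l + t * d) i = s := by rw [mul_comm d t] at ht; omega
    rw [e]; exact hs
  · obtain ⟨s0, -, hs0⟩ := h J hJ1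
    have hle : σ l ≤ ∑ l, σ l :=
      Finset.single_le_sum (f := σ) (fun _ _ => Nat.zero_le _) (Finset.mem_univ l)
    obtain ⟨s, hs, h1, h2, h3⟩ := hN (∑ l, σ l - J * d) (J * d) (by omega) (by
      have : ∑ l, σ l - J * d + J * d = ∑ l, σ l := by omega
      rw [this]; nlinarith)
    have h4 : s ≡ ∑ l, σ l [MOD d] := ((hs D h3).uniq hZ).of_dvd (dvd_factorial hd hdD)
    obtain ⟨t, ht⟩ := (Nat.modEq_iff_dvd' (by omega)).mp h4
    have htJ : t ≤ J := by
      have : d * t ≤ d * J := by rw [mul_comm d J]; omega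
      exact Nat.le_of_mul_le_mul_left this hd
    obtain ⟨s', hs', e'⟩ := h t ((Nat.mul_le_mul_right D htJ).trans hJ1)
    refine ⟨c, hc, update σ l s', wit_update' hσ hs', ?_⟩
    have := sum_upd σ l s'
    have e : ∑ i, update σ l s' i = s := by rw [mul_comm d t] at ht; omega
    rw [e]; exact hs

lemma line_case {𝒞 : Set (ι → Set (ℕ × ℕ))} {D M : ℕ} (hM : 0 < M) {c : ι → Set (ℕ × ℕ)}
    (hc : c ∈ 𝒞) {x σ : ι → ℕ} (hσ : ∀ l, (x l, σ l) ∈ c l) (hZ : ZZ (D * M) (∑ l, σ l)) {l : ι}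
    (hline : Line D (c l)) (hb : ∀ i, Bnd D (c i))
    (hall : ∀ t, update x l (x l + t * M) ∈ KK 𝒞 → ∃ c' ∈ 𝒞, ∃ σ' : ι → ℕ,
      (∀ i, (update x l (x l + t * M) i, σ' i) ∈ c' i) ∧ ∑ i, σ' i ∈ SS ∧ Line D (c' l) ∧
        ∀ i, Bnd D (c' i)) : Gen (KK 𝒞) := by
  obtain ⟨p, q, e, hp, hpD, hq, hqD, he, hpq, hstep⟩ := hline
  have hsteps : ∀ t v s, (v, s) ∈ c l → (v + t * p, s + t * q) ∈ c l := by
    intro t v s hs
    induction t with
    | zero => simpa using hs
    | succ t ih =>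
      rw [add_mul, add_mul, one_mul, one_mul, ← add_assoc, ← add_assoc]; exact hstep _ _ ih
  set B0 := ∑ i, (D * x i + D) with hB0
  have hrest : ∀ (c' : ι → Set (ℕ × ℕ)) (v : ℕ) (σ' : ι → ℕ), (∀ i, Bnd D (c' i)) →
      (∀ i, (update x l v i, σ' i) ∈ c' i) → ∃ r, r ≤ B0 ∧ ∑ i, σ' i = σ' l + r := by
    intro c' v σ' hb' hw
    refine ⟨∑ i ∈ Finset.univ.erase l, σ' i, ?_,
      (Finset.add_sum_erase Finset.univ σ' (Finset.mem_univ l)).symm⟩
    calc ∑ i ∈ Finset.univ.erase l, σ' i ≤ ∑ i ∈ Finset.univ.erase l, (D * x i + D) := by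
          refine Finset.sum_le_sum fun i hi => ?_
          have := hb' i _ _ (hw i)
          rwa [update_of_ne (Finset.ne_of_mem_erase hi)] at this
      _ ≤ B0 := Finset.sum_le_sum_of_subset (Finset.erase_subset _ _)
  obtain ⟨j2, hj2⟩ := ZZ_irr (2 * (D * D) + 2 * (D * D * B0))
  set W := j2 ! with hW
  have hWpos : 0 < W := factorial_pos _
  set Q := W * M * q with hQ
  have hQpos : 0 < Q := by positivity
  obtain ⟨s, hs, hsl⟩ := SS_large (∑ l, σ l + D * (D * TT j2 + D) + TT j2 + TT Q + TT (D * M))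
  have h1 : ∑ l, σ l ≡ s [MOD M * q] := (hZ.uniq (hs _ (by omega))).of_dvd
    (dvd_factorial (by positivity) (by rw [mul_comm D M]; exact Nat.mul_le_mul_left _ hqD))
  obtain ⟨n0, hn0⟩ := (Nat.modEq_iff_dvd' (by omega)).mp h1
  have hs0 : s = ∑ l, σ l + M * q * n0 := by omega
  have hbig : D * TT j2 + D ≤ n0 * M := by
    have h2 : D * (D * TT j2 + D) ≤ D * (n0 * M) := by
      calc D * (D * TT j2 + D) ≤ M * q * n0 := by omega
        _ = q * (n0 * M) := by ring
        _ ≤ D * (n0 * M) := Nat.mul_le_mul_right _ hqD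
    exact Nat.le_of_mul_le_mul_left h2 (by omega)
  have hw : ∀ t i, (update x l (x l + (n0 * M + t * (W * M)) * p) i,
      update σ l (σ l + (n0 * M + t * (W * M)) * q) i) ∈ c i :=
    fun t => wit_update hσ (hsteps _ _ _ (hσ l))
  have hsum : ∀ t, ∑ i, update σ l (σ l + (n0 * M + t * (W * M)) * q) i = s + t * Q := by
    intro t
    have := sum_upd σ l (σ l + (n0 * M + t * (W * M)) * q)
    have e2 : (n0 * M + t * (W * M)) * q = M * q * n0 + t * Q := by rw [hQ]; ring
    omega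
  have hupd : ∀ t, update (update x l (x l + n0 * M * p)) l
      (update x l (x l + n0 * M * p) l + t * (W * M * p)) =
      update x l (x l + (n0 * M + t * (W * M)) * p) := by
    intro t
    rw [update_idem, update_self]
    congr 1
    ring
  refine ⟨update x l (x l + n0 * M * p), l, W * M * p, Q, s, s + TT Q, ?_, fun t => ?_,
    fun σ1 hσ1 hle => ?_⟩
  · refine ⟨c, hc, _, by simpa using hw 0, ?_⟩
    have := hsum 0
    simp only [zero_mul, add_zero] at this
    rw [this]; exact hs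
  · rw [hupd]
    constructor
    · intro hK
      have e3 : x l + (n0 * M + t * (W * M)) * p = x l + ((n0 + t * W) * p) * M := by ring
      rw [e3] at hK
      obtain ⟨c', -, σ', hσ', hS', ⟨p', q', e', hp', hpD', hq', hqD', he', hpq', -⟩, hb'⟩ :=
        hall _ hK
      rw [← e3] at hσ'
      set v := x l + (n0 * M + t * (W * M)) * p with hv
      obtain ⟨r', hr', hsr'⟩ := hrest c' v σ' hb' hσ'
      obtain ⟨r, hr, hsr⟩ := hrest c v _ hb (hw t)
      rw [hsum, update_self] at hsr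
      have a1 := hpq' _ _ (hσ' l)
      have a2 := hpq _ _ (hw t l)
      rw [update_self] at a1
      rw [update_self, update_self] at a2
      set w := σ l + (n0 * M + t * (W * M)) * q with hwdef
      have hvbig : D * TT j2 + D ≤ v := by
        have : n0 * M ≤ (n0 * M + t * (W * M)) * p :=
          (Nat.le_add_right _ _).trans (Nat.le_mul_of_pos_right _ hp)
        omega
      have hlarge : TT j2 ≤ σ' l := by
        have b1 : v ≤ q' * v := Nat.le_mul_of_pos_left _ hq'
        have b2 : p' * σ' l ≤ D * σ' l := Nat.mul_le_mul_right _ hpD'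
        have b3 : D * TT j2 ≤ D * σ' l := by
          zify at b1 b2 hvbig ⊢
          have := (abs_le.mp he').1
          linarith
        exact Nat.le_of_mul_le_mul_left b3 (by omega)
      have z1 : ZZ j2 (∑ i, σ' i) := hS' j2 (by omega)
      have z2 : ZZ j2 (s + t * Q) := (hs j2 (by omega)).inv (by
        rw [hQ, show t * (W * M * q) = W * (t * M * q) by ring]
        simp [Nat.ModEq, hW])
      have c1 : p' * q ≤ D * D := Nat.mul_le_mul hpD' hqD
      have c2 : q' * p ≤ D * D := Nat.mul_le_mul hqD' hpD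
      have c3 : p' * q * r' ≤ D * D * B0 := Nat.mul_le_mul c1 hr'
      have c4 : q' * p * r ≤ D * D * B0 := Nat.mul_le_mul c2 hr
      have c5 : |(q : ℤ) * e'| ≤ D * D := by
        rw [abs_mul, Nat.abs_cast]
        exact mul_le_mul (by exact_mod_cast hqD) he' (abs_nonneg _) (by positivity)
      have c6 : |(q' : ℤ) * e| ≤ D * D := by
        rw [abs_mul, Nat.abs_cast]
        exact mul_le_mul (by exact_mod_cast hqD') he (abs_nonneg _) (by positivity)
      have key := hj2 _ _ z1 z2 (p' * q) (q' * p)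
        (q * e' + (p' * q * r' : ℕ) - q' * e - (q' * p * r : ℕ)) (by omega) (by omega) (by
          rw [abs_le] at c5 c6 ⊢
          zify at c3 c4
          push_cast
          have d1 : (0 : ℤ) ≤ (p' : ℤ) * q * r' := by positivity
          have d2 : (0 : ℤ) ≤ (q' : ℤ) * p * r := by positivity
          have d3 : (0 : ℤ) ≤ (D : ℤ) * D * B0 := by positivity
          constructor <;> linarith) (by
          rw [hsr', hsr]
          push_cast
          linear_combination (q : ℤ) * a1 - (q' : ℤ) * a2)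
      have fin : (p' * q) * ∑ i, σ' i = (p' * q) * (s + t * Q) := by
        have k1 := key.1
        have k2 := key.2
        rw [hsr', hsr]
        zify at k1 ⊢
        push_cast at k2
        linear_combination (q : ℤ) * a1 - (q' : ℤ) * a2 + k2 - ((w : ℤ) + r) * k1
      rw [← Nat.eq_of_mul_eq_mul_left (by positivity) fin]
      exact hS'
    · intro hS
      exact ⟨c, hc, _, hw t, by rw [hsum]; exact hS⟩
  · have h2 : s ≡ σ1 [MOD Q] := ((hs Q (by omega)).uniq (hσ1 Q (by omega))).of_dvd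
      (dvd_factorial hQpos le_rfl)
    obtain ⟨t, ht⟩ := (Nat.modEq_iff_dvd' (by omega)).mp h2
    exact ⟨t, by rw [mul_comm t Q]; omega⟩

end Pool.Agent.P.MP_3a8f7c_lc
end

-- part Pool.Agent.P.MP_3a8f7c_lc.Dich
section

set_option autoImplicit false

namespace Pool.Agent.P.MP_3a8f7c_lc

open Filter Nat Function

variable {ι : Type} [Fintype ι] [DecidableEq ι]

lemma star_lemma {𝒞 : Set (ι → Set (ℕ × ℕ))} (hf : 𝒞.Finite)
    (hl : ∀ c ∈ 𝒞, ∀ l, IsLinearSet (c l)) (hG : ¬ Gen (KK 𝒞)) (J : Finset ι) (hJ : J.Nonempty)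
    (y : ι → ℕ) : ∃ n, ∀ x0 : ι → ℕ, (∀ l ∈ J, n ≤ x0 l) → ∃ l ∈ J, ∀ x' x'' : ι → ℕ,
      (∀ i, Eqv n (x0 i) (x' i)) → (∀ i, Eqv n (x0 i) (x'' i)) → (∀ i ∉ J, x'' i = y i) →
      (∀ i ≠ l, x'' i = x' i) → x' ∈ KK 𝒞 → x'' ∈ KK 𝒞 := by
  have hD : ∀ᶠ D in atTop, ∀ c ∈ 𝒞, ∀ l,
      Free D (c l) ∨ (Bnd D (c l) ∧ (Thick D (c l) ∨ Flat (c l) ∨ Line D (c l))) := by
    rw [eventually_all_finite hf]
    exact fun c hc => eventually_all.mpr fun l => trichotomy (hl c hc l)
  obtain ⟨D, hD, hD1⟩ := (hD.and (eventually_ge_atTop 1)).exists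
  obtain ⟨n1, hn1⟩ := (transfer_all hf hl (TT D)).exists
  obtain ⟨n2, hn2, hn12⟩ :=
    ((transfer_all hf hl (TT (D * n1 !))).and (eventually_ge_atTop n1)).exists
  obtain ⟨N, hN⟩ := thick_case (ι := ι) D (D * (2 * Fintype.card ι + 1)) hD1
  have hTT : TT D ≤ TT (D * n1 !) := TT_mono (Nat.le_mul_of_pos_right _ (factorial_pos _))
  let Comp : (ι → Set (ℕ × ℕ)) → (ι → ℕ) → Prop := fun c x =>
    ∃ σ : ι → ℕ, (∀ l, (x l, σ l) ∈ c l) ∧ TT D ≤ ∑ l, σ l ∧ ZZ D (∑ l, σ l)
  have hComp : ∀ c ∈ 𝒞, ∀ x x' : ι → ℕ, (∀ l, Eqv n1 (x l) (x' l)) → Comp c x → Comp c x' := by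
    rintro c hc x x' hx ⟨σ, h1, h2, h3⟩
    obtain ⟨σ', g1, g2⟩ := hn1 c hc x x' σ hx h1
    exact ⟨σ', g1, g2.le h2, h3.inv (g2.modEq.of_dvd (factorial_dvd_factorial (le_TT D)))⟩
  refine ⟨n2 + ∑ i, y i + N + 1, fun x0 hx0 => ?_⟩
  set n := n2 + ∑ i, y i + N + 1 with hn
  have hnn2 : n2 ≤ n := by omega
  have hnn1 : n1 ≤ n := by omega
  obtain ⟨l0, hl0⟩ := hJ
  by_cases hsmall : ∃ c ∈ 𝒞, ∃ σ : ι → ℕ, (∀ l, (x0 l, σ l) ∈ c l) ∧ ∑ l, σ l ∈ SS ∧
      ∑ l, σ l < TT (D * n1 !)
  · obtain ⟨c, hc, σ, h1, h2, h3⟩ := hsmall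
    refine ⟨l0, hl0, fun x' x'' _ hx'' _ _ _ => ?_⟩
    obtain ⟨σ', g1, g2⟩ := hn2 c hc x0 x'' σ (fun l => (hx'' l).mono hnn2) h1
    exact ⟨c, hc, σ', g1, by rw [← g2.eq_of_lt h3]; exact h2⟩
  by_cases hfree : ∃ c ∈ 𝒞, Comp c x0 ∧ ∃ l, Free D (c l)
  · obtain ⟨c, hc, h1, l, h2⟩ := hfree
    refine ⟨l0, hl0, fun x' x'' _ hx'' _ _ _ => ?_⟩
    obtain ⟨σ, g1, -, g3⟩ := hComp c hc x0 x'' (fun l => (hx'' l).mono hnn1) h1
    exact free_case hc g1 g3 h2
  have hnf : ∀ c ∈ 𝒞, Comp c x0 → ∀ l,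
      Bnd D (c l) ∧ (Thick D (c l) ∨ Flat (c l) ∨ Line D (c l)) := by
    intro c hc h l
    rcases hD c hc l with h1 | h1
    · exact absurd ⟨c, hc, h, l, h1⟩ hfree
    · exact h1
  by_cases hthick : ∀ l ∈ J, ∃ c ∈ 𝒞, Comp c x0 ∧ Thick D (c l)
  · refine ⟨l0, hl0, fun x' x'' _ hx'' hy _ _ => ?_⟩
    obtain ⟨l, hlJ, hmax⟩ := Finset.exists_max_image J x'' ⟨l0, hl0⟩
    obtain ⟨c, hc, h1, h2⟩ := hthick l hlJ
    obtain ⟨σ, g1, -, g3⟩ := hComp c hc x0 x'' (fun l => (hx'' l).mono hnn1) h1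
    have hxl : n ≤ x'' l := (hx'' l).le (hx0 l hlJ)
    refine hN 𝒞 c hc x'' σ g1 g3 l h2 (by omega) ?_
    have hb : ∀ i, σ i ≤ 2 * D * x'' l := by
      intro i
      have k1 := (hnf c hc h1 i).1 _ _ (g1 i)
      have k2 : x'' i ≤ x'' l := by
        by_cases hi : i ∈ J
        · exact hmax i hi
        · rw [hy i hi]
          have := Finset.single_le_sum (f := y) (fun _ _ => Nat.zero_le _) (Finset.mem_univ i)
          omega
      have k3 : D * x'' i ≤ D * x'' l := Nat.mul_le_mul_left _ k2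
      have k4 : D ≤ D * x'' l := Nat.le_mul_of_pos_right _ (by omega)
      nlinarith
    have := Finset.sum_le_card_nsmul Finset.univ σ _ (fun i _ => hb i)
    rw [Finset.card_univ, smul_eq_mul] at this
    nlinarith [Nat.zero_le (D * x'' l)]
  push Not at hthick
  obtain ⟨l, hlJ, hl'⟩ := hthick
  have hfl : ∀ c ∈ 𝒞, Comp c x0 → Flat (c l) ∨ Line D (c l) := by
    intro c hc h
    rcases (hnf c hc h l).2 with h1 | h1
    · exact absurd h1 (hl' c hc h)
    · exact h1
  refine ⟨l, hlJ, fun x' x'' hx' hx'' _ hagree hK => ?_⟩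
  have hflat : ∀ c ∈ 𝒞, Comp c x0 → Flat (c l) → ∀ (z σ : ι → ℕ), (∀ i ≠ l, x'' i = z i) →
      (∀ i, (z i, σ i) ∈ c i) → ∑ i, σ i ∈ SS → x'' ∈ KK 𝒞 := by
    intro c hc h1 h2 z σ hz hσ hS
    obtain ⟨σ', g1, -, -⟩ := hComp c hc x0 x'' (fun l => (hx'' l).mono hnn1) h1
    refine ⟨c, hc, σ, fun i => ?_, hS⟩
    by_cases hi : i = l
    · subst hi
      rw [h2 _ _ _ _ (hσ i) (g1 i)]
      exact g1 i
    · rw [hz i hi]; exact hσ i
  obtain ⟨c, hc, σ, hσ, hS⟩ := hK
  have hbig : TT (D * n1 !) ≤ ∑ i, σ i := by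
    by_contra hlt
    push Not at hlt
    obtain ⟨σ', g1, g2⟩ := hn2 c hc x' x0 σ (fun l => (hx' l).symm.mono hnn2) hσ
    have e := g2.eq_of_lt hlt
    exact hsmall ⟨c, hc, σ', g1, e ▸ hS, e ▸ hlt⟩
  have hc0 : Comp c x0 := hComp c hc x' x0 (fun l => (hx' l).symm.mono hnn1)
    ⟨σ, hσ, hTT.trans hbig, hS D (hTT.trans hbig)⟩
  rcases hfl c hc hc0 with h | h
  · exact hflat c hc hc0 h x' σ hagree hσ hS
  by_contra hnot
  apply hG
  refine line_case (factorial_pos n1) hc hσ (hS _ hbig) h (fun i => (hnf c hc hc0 i).1) ?_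
  rintro t ⟨c', hc', σ', hσ', hS'⟩
  have he : ∀ i, Eqv n1 (update x' l (x' l + t * n1 !) i) (x0 i) := by
    intro i
    refine Eqv.trans ?_ ((hx' i).symm.mono hnn1)
    by_cases hi : i = l
    · subst hi
      have : n ≤ x' i := (hx' i).le (hx0 i hlJ)
      rw [update_self]
      exact Or.inr ⟨by omega, by omega, by simp [Nat.ModEq]⟩
    · rw [update_of_ne hi]; exact Eqv.refl _ _
  have hbig' : TT D ≤ ∑ i, σ' i := by
    by_contra hlt
    push Not at hlt
    obtain ⟨σ'', g1, g2⟩ := hn1 c' hc' _ x0 σ' he hσ'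
    have e := g2.eq_of_lt hlt
    exact hsmall ⟨c', hc', σ'', g1, e ▸ hS', by omega⟩
  have hc0' : Comp c' x0 := hComp c' hc' _ x0 he ⟨σ', hσ', hbig', hS' D hbig'⟩
  rcases hfl c' hc' hc0' with h' | h'
  · exact absurd (hflat c' hc' hc0' h' _ σ'
      (fun i hi => by rw [update_of_ne hi]; exact hagree i hi) hσ' hS') hnot
  · exact ⟨c', hc', σ', hσ', hS', h', fun i => (hnf c' hc' hc0' i).1⟩

theorem dichotomy {𝒞 : Set (ι → Set (ℕ × ℕ))} (hf : 𝒞.Finite)
    (hl : ∀ c ∈ 𝒞, ∀ l, IsLinearSet (c l)) : Gen (KK 𝒞) ∨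
      ∃ n, ∀ x x' : ι → ℕ, (∀ l, Eqv n (x l) (x' l)) → x ∈ KK 𝒞 → x' ∈ KK 𝒞 := by
  rw [or_iff_not_imp_left]
  intro hG
  have key : ∀ (J : Finset ι) (y : ι → ℕ), ∀ᶠ n in atTop, ∀ x x' : ι → ℕ,
      (∀ l ∉ J, x l = y l) → (∀ l ∉ J, x' l = y l) → (∀ l, Eqv n (x l) (x' l)) →
        x ∈ KK 𝒞 → x' ∈ KK 𝒞 := by
    intro J
    induction J using Finset.strongInduction with
    | H J ih =>
    intro y
    rcases J.eq_empty_or_nonempty with rfl | hJ
    · refine Eventually.of_forall fun n x x' h1 h2 _ hx => ?_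
      have : x' = x := funext fun l => by
        rw [h1 l (Finset.notMem_empty l), h2 l (Finset.notMem_empty l)]
      rw [this]; exact hx
    obtain ⟨n, hn⟩ := star_lemma hf hl hG J hJ y
    have h2 : ∀ᶠ m in atTop, ∀ l ∈ (J : Set ι), ∀ v ∈ Set.Iio (n + n !), ∀ x x' : ι → ℕ,
        (∀ i ∉ J.erase l, x i = update y l v i) → (∀ i ∉ J.erase l, x' i = update y l v i) →
        (∀ i, Eqv m (x i) (x' i)) → x ∈ KK 𝒞 → x' ∈ KK 𝒞 := by
      rw [eventually_all_finite J.finite_toSet]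
      intro l hlJ
      rw [eventually_all_finite (Set.finite_Iio _)]
      intro v _
      exact ih (J.erase l) (Finset.erase_ssubset hlJ) _
    filter_upwards [h2, eventually_ge_atTop n] with m hm hnm x x' hx hx' hxx hK
    have hsec : ∀ (z : ι → ℕ) (l : ι), (∀ i ∉ J, z i = y i) →
        ∀ i ∉ J.erase l, z i = update y l (z l) i := by
      intro z l hz i hi
      by_cases hil : i = l
      · subst hil; simp
      · rw [update_of_ne hil]
        exact hz i fun h => hi (Finset.mem_erase.mpr ⟨hil, h⟩)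
    by_cases hsm : ∃ l ∈ J, x l < n
    · obtain ⟨l, hlJ, hlt⟩ := hsm
      have e : x l = x' l := (hxx l).eq_of_lt (by omega)
      refine hm l hlJ (x l) (by simp only [Set.mem_Iio]; omega) x x' (hsec x l hx) ?_ hxx hK
      rw [e]; exact hsec x' l hx'
    · push Not at hsm
      obtain ⟨l, hlJ, h⟩ := hn x hsm
      obtain ⟨v, hv, hxv⟩ := exists_rep n (x l)
      have hu : ∀ z : ι → ℕ, (∀ i ∉ J, z i = y i) → ∀ i ∉ J, update z l v i = y i := by
        intro z hz i hi
        rw [update_of_ne (fun h => hi (by rw [h]; exact hlJ))]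
        exact hz i hi
      have he : ∀ z : ι → ℕ, (∀ i, Eqv n (x i) (z i)) → ∀ i, Eqv n (x i) (update z l v i) := by
        intro z hz i
        by_cases hil : i = l
        · subst hil; simpa using hxv
        · rw [update_of_ne hil]; exact hz i
      have k1 : update x l v ∈ KK 𝒞 := h x _ (fun i => Eqv.refl _ _)
        (he x fun i => Eqv.refl _ _) (hu x hx) (fun i hi => update_of_ne hi _ _) hK
      have k2 : update x' l v ∈ KK 𝒞 := by
        refine hm l hlJ v hv _ _ ?_ ?_ ?_ k1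
        · simpa using hsec _ l (hu x hx)
        · simpa using hsec _ l (hu x' hx')
        · intro i
          by_cases hil : i = l
          · subst hil; simpa using Eqv.refl _ _
          · rw [update_of_ne hil, update_of_ne hil]; exact hxx i
      exact h _ x' (he x' fun i => (hxx i).mono hnm) (fun i => (hxx i).mono hnm) hx'
        (fun i hi => (update_of_ne hi _ _).symm) k2
  obtain ⟨n, hn⟩ := (key Finset.univ 0).exists
  exact ⟨n, fun x x' h => hn x x' (by simp) (by simp) h⟩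

end Pool.Agent.P.MP_3a8f7c_lc
end

-- part Pool.Agent.P.MP_3a8f7c_lc.Aut
section

set_option autoImplicit false

namespace Pool.Agent.P.MP_3a8f7c_lc

/-- paths of a weighted automaton with empty moves -/
inductive Path {Q B : Type} (E : Q → Option B → ℕ → Q → Prop) : Q → List B → ℕ → Q → Prop
  | nil (q : Q) : Path E q [] 0 q
  | eps {p p' q : Q} {w s : ℕ} {u : List B} :
      E p none w p' → Path E p' u s q → Path E p u (w + s) q
  | sym {p p' q : Q} {w s : ℕ} {b : B} {u : List B} :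
      E p (some b) w p' → Path E p' u s q → Path E p (b :: u) (w + s) q

lemma Path.trans {Q B : Type} {E : Q → Option B → ℕ → Q → Prop} {p r q : Q} {u v : List B}
    {s t : ℕ} (h1 : Path E p u s r) (h2 : Path E r v t q) : Path E p (u ++ v) (s + t) q := by
  induction h1 with
  | nil q => simpa using h2
  | eps he _ ih => rw [add_assoc]; exact Path.eps he (ih h2)
  | sym he _ ih => rw [add_assoc]; exact Path.sym he (ih h2)

lemma Path.split {Q B : Type} {E : Q → Option B → ℕ → Q → Prop} {p q : Q} {z : List B}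
    {s : ℕ} (h : Path E p z s q) : ∀ u v : List B, z = u ++ v →
      ∃ r s1 s2, Path E p u s1 r ∧ Path E r v s2 q ∧ s = s1 + s2 := by
  induction h with
  | nil q =>
    intro u v huv
    obtain ⟨rfl, rfl⟩ := List.nil_eq_append_iff.mp huv
    exact ⟨q, 0, 0, Path.nil q, Path.nil q, rfl⟩
  | eps he _ ih =>
    intro u v huv
    obtain ⟨r, s1, s2, h1, h2, rfl⟩ := ih u v huv
    exact ⟨r, _, s2, Path.eps he h1, h2, by ring⟩
  | @sym p p' q w s b z he hp ih =>
    intro u v huv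
    rcases u with _ | ⟨c, u⟩
    · simp only [List.nil_append] at huv
      subst huv
      exact ⟨p, 0, w + s, Path.nil p, Path.sym he hp, by ring⟩
    · simp only [List.cons_append, List.cons.injEq] at huv
      obtain ⟨rfl, huv⟩ := huv
      obtain ⟨r, s1, s2, h1, h2, rfl⟩ := ih u v huv
      exact ⟨r, _, s2, Path.sym he h1, h2, by ring⟩

lemma Path.mem {Q B : Type} {E : Q → Option B → ℕ → Q → Prop} {X : Set Q}
    (hX : ∀ p o w p', p ∈ X → E p o w p' → p' ∈ X) {p q : Q} {z : List B}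
    {s : ℕ} (h : Path E p z s q) : p ∈ X → q ∈ X := by
  induction h with
  | nil q => exact id
  | eps he _ ih => exact fun hp => ih (hX _ _ _ _ hp he)
  | sym he _ ih => exact fun hp => ih (hX _ _ _ _ hp he)

/-- languages accepted by a finite weighted automaton with total weight in `S` -/
def DD (S : Set ℕ) (B : Type) [Finite B] : Set (Language B) :=
  {K | ∃ (Q : Type) (E : Q → Option B → ℕ → Q → Prop) (i : Q) (F X : Set Q),
    X.Finite ∧ i ∈ X ∧ (∀ p o w p', p ∈ X → E p o w p' → p' ∈ X) ∧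
    (∀ p o w p', E p o w p' → w ≤ 1) ∧
    ∀ u, u ∈ K ↔ ∃ f ∈ F, ∃ s ∈ S, Path E i u s f}

lemma exists_len_bound {A B : Type} [Finite A] (h : A → List B) :
    ∃ m, ∀ a, (h a).length ≤ m := by
  obtain ⟨M, hM⟩ := (Set.finite_range (fun a => (h a).length)).bddAbove
  exact ⟨M, fun a => hM ⟨a, rfl⟩⟩

/-- edges for the morphic image -/
def imE {Q A B : Type} (E : Q → Option A → ℕ → Q → Prop) (h : A → List B) :
    Q × List B → Option B → ℕ → Q × List B → Prop
  | x, none, w, y => x.2 = [] ∧ ((E x.1 none w y.1 ∧ y.2 = []) ∨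
      ∃ a, E x.1 (some a) w y.1 ∧ y.2 = h a)
  | x, some b, w, y => w = 0 ∧ y.1 = x.1 ∧ x.2 = b :: y.2

lemma imE_flush {Q A B : Type} (E : Q → Option A → ℕ → Q → Prop) (h : A → List B) (p : Q)
    (β : List B) : Path (imE E h) (p, β) β 0 (p, []) := by
  induction β with
  | nil => exact Path.nil _
  | cons b β ih =>
    have := Path.sym (E := imE E h) (p := (p, b :: β)) (p' := (p, β)) (w := 0) (b := b)
      ⟨rfl, rfl, rfl⟩ ih
    simpa using this

lemma imE_of {Q A B : Type} {E : Q → Option A → ℕ → Q → Prop} (h : A → List B) {p q : Q}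
    {u : List A} {s : ℕ} (hp : Path E p u s q) :
    Path (imE E h) (p, []) (u.flatMap h) s (q, []) := by
  induction hp with
  | nil q => exact Path.nil _
  | @eps p p' q w s u he _ ih =>
    exact Path.eps (p' := (p', [])) ⟨rfl, Or.inl ⟨he, rfl⟩⟩ ih
  | @sym p p' q w s b u he _ ih =>
    have h1 := (imE_flush E h p' (h b)).trans ih
    rw [zero_add] at h1
    rw [List.flatMap_cons]
    exact Path.eps (p' := (p', h b)) ⟨rfl, Or.inr ⟨b, he, rfl⟩⟩ h1

lemma imE_to {Q A B : Type} {E : Q → Option A → ℕ → Q → Prop} (h : A → List B)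
    {x y : Q × List B} {v : List B} {s : ℕ} (hp : Path (imE E h) x v s y) (hy : y.2 = []) :
    ∃ u, Path E x.1 u s y.1 ∧ v = x.2 ++ u.flatMap h := by
  induction hp with
  | nil q => exact ⟨[], Path.nil _, by simp [hy]⟩
  | eps he _ ih =>
    obtain ⟨u, hu, rfl⟩ := ih hy
    obtain ⟨h1, ⟨h2, h3⟩ | ⟨a, h2, h3⟩⟩ := he
    · exact ⟨u, Path.eps h2 hu, by rw [h1, h3]⟩
    · exact ⟨a :: u, Path.sym h2 hu, by rw [h1, h3]; simp⟩
  | sym he _ ih =>
    obtain ⟨u, hu, rfl⟩ := ih hy
    obtain ⟨rfl, h2, h3⟩ := he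
    rw [h2] at hu
    exact ⟨u, by simpa using hu, by rw [h3]; simp⟩

/-- edges for the inverse image -/
def invE {Q A B : Type} (E : Q → Option B → ℕ → Q → Prop) (h : A → List B) :
    Q × List B → Option A → ℕ → Q × List B → Prop
  | x, none, w, y => (E x.1 none w y.1 ∧ y.2 = x.2) ∨ ∃ b, E x.1 (some b) w y.1 ∧ x.2 = b :: y.2
  | x, some a, w, y => x.2 = [] ∧ w = 0 ∧ y.1 = x.1 ∧ y.2 = h a

lemma invE_to {Q A B : Type} {E : Q → Option B → ℕ → Q → Prop} (h : A → List B)
    {x y : Q × List B} {u : List A} {s : ℕ} (hp : Path (invE E h) x u s y) (hy : y.2 = []) :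
    Path E x.1 (x.2 ++ u.flatMap h) s y.1 := by
  induction hp with
  | nil q => simpa [hy] using Path.nil _
  | eps he _ ih =>
    have := ih hy
    obtain ⟨h2, h3⟩ | ⟨b, h2, h3⟩ := he
    · rw [h3] at this; exact Path.eps h2 this
    · rw [h3]; exact Path.sym h2 this
  | sym he _ ih =>
    have := ih hy
    obtain ⟨h1, rfl, h2, h3⟩ := he
    rw [h2, h3] at this
    rw [h1]
    simpa using this

lemma invE_of {Q A B : Type} {E : Q → Option B → ℕ → Q → Prop} (h : A → List B) {p q : Q}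
    {v : List B} {s : ℕ} (hp : Path E p v s q) : ∀ (β : List B) (u : List A),
      v = β ++ u.flatMap h → Path (invE E h) (p, β) u s (q, []) := by
  induction hp with
  | nil q =>
    intro β u hv
    obtain ⟨rfl, hu⟩ := List.nil_eq_append_iff.mp hv
    clear hv
    induction u with
    | nil => exact Path.nil _
    | cons a u ih =>
      rw [List.flatMap_cons, List.append_eq_nil_iff] at hu
      have := Path.sym (E := invE E h) (p := (q, [])) (p' := (q, [])) (w := 0) (b := a)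
        ⟨rfl, rfl, rfl, hu.1.symm⟩ (ih hu.2)
      simpa using this
  | @eps p p' q w s v he _ ih =>
    intro β u hv
    exact Path.eps (p' := (p', β)) (Or.inl ⟨he, rfl⟩) (ih β u hv)
  | @sym p p' q w s b v he _ ih =>
    intro β u hv
    rcases β with _ | ⟨c, β⟩
    · induction u with
      | nil => simp at hv
      | cons a u ihu =>
        rw [List.nil_append, List.flatMap_cons] at hv
        have key : Path (invE E h) (p, h a) u (w + s) (q, []) := by
          rcases hha : h a with _ | ⟨c, γ⟩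
          · rw [hha] at hv
            exact ihu hv
          · rw [hha, List.cons_append, List.cons.injEq] at hv
            obtain ⟨rfl, hv⟩ := hv
            exact Path.eps (p' := (p', γ)) (Or.inr ⟨b, he, rfl⟩) (ih γ u hv)
        have := Path.sym (E := invE E h) (p := (p, [])) (p' := (p, h a)) (w := 0) (b := a)
          ⟨rfl, rfl, rfl, rfl⟩ key
        simpa using this
    · rw [List.cons_append, List.cons.injEq] at hv
      obtain ⟨rfl, hv⟩ := hv
      exact Path.eps (p' := (p', β)) (Or.inr ⟨b, he, rfl⟩) (ih β u hv)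

/-- edges for the product with a deterministic automaton -/
def prE {Q B σ : Type} (E : Q → Option B → ℕ → Q → Prop) (M : DFA B σ) :
    Q × σ → Option B → ℕ → Q × σ → Prop
  | x, none, w, y => E x.1 none w y.1 ∧ y.2 = x.2
  | x, some b, w, y => E x.1 (some b) w y.1 ∧ y.2 = M.step x.2 b

lemma prE_to {Q B σ : Type} {E : Q → Option B → ℕ → Q → Prop} (M : DFA B σ)
    {x y : Q × σ} {u : List B} {s : ℕ} (hp : Path (prE E M) x u s y) :
    Path E x.1 u s y.1 ∧ y.2 = M.evalFrom x.2 u := by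
  induction hp with
  | nil q => exact ⟨Path.nil _, rfl⟩
  | eps he _ ih => exact ⟨Path.eps he.1 ih.1, by rw [ih.2, he.2]⟩
  | sym he _ ih => exact ⟨Path.sym he.1 ih.1, by rw [ih.2, he.2]; rfl⟩

lemma prE_of {Q B σ : Type} {E : Q → Option B → ℕ → Q → Prop} (M : DFA B σ) {p q : Q}
    {u : List B} {s : ℕ} (hp : Path E p u s q) :
    ∀ a : σ, Path (prE E M) (p, a) u s (q, M.evalFrom a u) := by
  induction hp with
  | nil q => exact fun a => Path.nil _
  | @eps p p' q w s u he _ ih => exact fun a => Path.eps (p' := (p', a)) ⟨he, rfl⟩ (ih a)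
  | @sym p p' q w s b u he _ ih =>
    exact fun a => Path.sym (p' := (p', M.step a b)) ⟨he, rfl⟩ (ih _)

theorem dd_isCone (S : Set ℕ) : IsCone (DD S) := by
  refine ⟨?_, ?_, ?_⟩
  · rintro A B _ _ h L ⟨Q, E, i, F, X, hX, hi, hcl, hw, hL⟩
    obtain ⟨m, hm⟩ := exists_len_bound h
    refine ⟨Q × List B, imE E h, (i, []), F ×ˢ {[]}, X ×ˢ {l | l.length ≤ m},
      hX.prod (List.finite_length_le B m), ⟨hi, by simp⟩, ?_, ?_, ?_⟩
    · rintro x o w y ⟨hx1, hx2⟩ he
      rcases o with _ | b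
      · obtain ⟨_, ⟨h2, h3⟩ | ⟨a, h2, h3⟩⟩ := he
        · exact ⟨hcl _ _ _ _ hx1 h2, by simp [h3]⟩
        · exact ⟨hcl _ _ _ _ hx1 h2, by simpa [h3] using hm a⟩
      · obtain ⟨_, h2, h3⟩ := he
        refine ⟨h2 ▸ hx1, ?_⟩
        simp only [Set.mem_setOf_eq, h3, List.length_cons] at hx2 ⊢
        omega
    · rintro x o w y he
      rcases o with _ | b
      · obtain ⟨_, ⟨h2, _⟩ | ⟨a, h2, _⟩⟩ := he
        · exact hw _ _ _ _ h2
        · exact hw _ _ _ _ h2
      · rw [he.1]; omega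
    · intro v
      constructor
      · rintro ⟨u, hu, rfl⟩
        obtain ⟨f, hf, s, hs, hp⟩ := (hL u).mp hu
        exact ⟨(f, []), ⟨hf, rfl⟩, s, hs, imE_of h hp⟩
      · rintro ⟨y, ⟨hy1, hy2⟩, s, hs, hp⟩
        obtain ⟨u, hu, rfl⟩ := imE_to h hp hy2
        exact ⟨u, (hL u).mpr ⟨_, hy1, s, hs, hu⟩, by simp⟩
  · rintro A B _ _ h L ⟨Q, E, i, F, X, hX, hi, hcl, hw, hL⟩
    obtain ⟨m, hm⟩ := exists_len_bound h
    refine ⟨Q × List B, invE E h, (i, []), F ×ˢ {[]}, X ×ˢ {l | l.length ≤ m},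
      hX.prod (List.finite_length_le B m), ⟨hi, by simp⟩, ?_, ?_, ?_⟩
    · rintro x o w y ⟨hx1, hx2⟩ he
      rcases o with _ | a
      · obtain ⟨h2, h3⟩ | ⟨b, h2, h3⟩ := he
        · exact ⟨hcl _ _ _ _ hx1 h2, by simpa [h3] using hx2⟩
        · refine ⟨hcl _ _ _ _ hx1 h2, ?_⟩
          simp only [Set.mem_setOf_eq, h3, List.length_cons] at hx2 ⊢
          omega
      · obtain ⟨_, _, h2, h3⟩ := he
        exact ⟨h2 ▸ hx1, by simpa [h3] using hm a⟩
    · rintro x o w y he
      rcases o with _ | a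
      · obtain ⟨h2, _⟩ | ⟨b, h2, _⟩ := he
        · exact hw _ _ _ _ h2
        · exact hw _ _ _ _ h2
      · rw [he.2.1]; omega
    · intro u
      change u.flatMap h ∈ L ↔ _
      rw [hL]
      constructor
      · rintro ⟨f, hf, s, hs, hp⟩
        exact ⟨(f, []), ⟨hf, rfl⟩, s, hs, invE_of h hp [] u (by simp)⟩
      · rintro ⟨y, ⟨hy1, hy2⟩, s, hs, hp⟩
        exact ⟨y.1, hy1, s, hs, by simpa using invE_to h hp hy2⟩
  · rintro A _ L R ⟨Q, E, i, F, X, hX, hi, hcl, hw, hL⟩ ⟨σ, hσ, M, rfl⟩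
    refine ⟨Q × σ, prE E M, (i, M.start), F ×ˢ M.accept, X ×ˢ Set.univ,
      hX.prod Set.finite_univ, ⟨hi, trivial⟩, ?_, ?_, ?_⟩
    · rintro x o w y ⟨hx1, _⟩ he
      rcases o with _ | a
      · exact ⟨hcl _ _ _ _ hx1 he.1, trivial⟩
      · exact ⟨hcl _ _ _ _ hx1 he.1, trivial⟩
    · rintro x o w y he
      rcases o with _ | a
      · exact hw _ _ _ _ he.1
      · exact hw _ _ _ _ he.1
    · intro u
      change (u ∈ L ∧ M.eval u ∈ M.accept) ↔ _
      rw [hL]
      constructor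
      · rintro ⟨⟨f, hf, s, hs, hp⟩, ha⟩
        exact ⟨(f, M.eval u), ⟨hf, ha⟩, s, hs, prE_of M hp _⟩
      · rintro ⟨y, ⟨hy1, hy2⟩, s, hs, hp⟩
        obtain ⟨h1, h2⟩ := prE_to M hp
        exact ⟨⟨_, hy1, s, hs, h1⟩, by rw [h2] at hy2; exact hy2⟩

/-- words whose length lies in `S` -/
def lenLang (S : Set ℕ) (B : Type) : Language B := {u | u.length ∈ S}

lemma lenLang_mem_dd (S : Set ℕ) (B : Type) [Finite B] : lenLang S B ∈ DD S B := by
  refine ⟨Unit, fun _ o w _ => o ≠ none ∧ w = 1, (), Set.univ, Set.univ, Set.finite_univ, trivial,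
    fun _ _ _ _ _ _ => trivial, fun _ _ _ _ h => h.2.le, fun u => ?_⟩
  have k1 : ∀ (p q : Unit) (u : List B) (s : ℕ),
      Path (fun (_ : Unit) (o : Option B) w (_ : Unit) => o ≠ none ∧ w = 1) p u s q →
        s = u.length := by
    intro p q u s hp
    induction hp with
    | nil q => rfl
    | eps he _ _ => exact absurd rfl he.1
    | sym he _ ih => rw [he.2, ih, List.length_cons]; ring
  have k2 : ∀ u : List B,
      Path (fun (_ : Unit) (o : Option B) w (_ : Unit) => o ≠ none ∧ w = 1) () u u.length () := by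
    intro u
    induction u with
    | nil => exact Path.nil _
    | cons b u ih =>
      rw [List.length_cons, add_comm]
      exact Path.sym (p' := ()) ⟨by simp, rfl⟩ ih
  constructor
  · intro hu
    exact ⟨(), trivial, _, hu, k2 u⟩
  · rintro ⟨f, _, s, hs, hp⟩
    rw [k1 _ _ _ _ hp] at hs
    exact hs

lemma regular_of_dd {B : Type} [Finite B] {L : Language B} (h : L ∈ DD Set.univ B) :
    L.IsRegular := by
  obtain ⟨Q, E, i, F, X, hX, hi, hcl, hw, hL⟩ := h
  apply Language.IsRegular.of_finite_range_leftQuotient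
  refine (hX.powerset.image (fun Y : Set Q =>
    ({v | ∃ r ∈ Y, ∃ f ∈ F, ∃ s, Path E r v s f} : Language B))).subset ?_
  rintro _ ⟨u, rfl⟩
  refine ⟨{r | ∃ s, Path E i u s r}, ?_, ?_⟩
  · rintro r ⟨s, hs⟩
    exact hs.mem hcl hi
  · ext v
    change _ ↔ u ++ v ∈ L
    rw [hL]
    constructor
    · rintro ⟨r, ⟨s1, h1⟩, f, hf, s2, h2⟩
      exact ⟨f, hf, _, trivial, h1.trans h2⟩
    · rintro ⟨f, hf, s, _, hp⟩
      obtain ⟨r, s1, s2, h1, h2, _⟩ := hp.split u v rfl
      exact ⟨r, ⟨s1, h1⟩, f, hf, s2, h2⟩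

lemma regular_image {A B : Type} [Finite A] [Finite B] (h : A → List B) {L : Language A}
    (hL : L.IsRegular) : Language.IsRegular ({w | ∃ u ∈ L, u.flatMap h = w} : Language B) := by
  apply regular_of_dd
  apply (dd_isCone Set.univ).1
  have := (dd_isCone Set.univ).2.2 A _ L (lenLang_mem_dd Set.univ A) hL
  have e : lenLang Set.univ A ⊓ L = L := by
    ext u
    change (u.length ∈ Set.univ ∧ u ∈ L) ↔ _
    simp
  rwa [e] at this

end Pool.Agent.P.MP_3a8f7c_lc
end

-- part Pool.Agent.P.MP_3a8f7c_lc.Kleene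
section

set_option autoImplicit false

namespace Pool.Agent.P.MP_3a8f7c_lc

open Pointwise

/-- nonempty walks whose inner vertices lie in `X`, labels added -/
inductive Plus {Q M : Type} [AddCommMonoid M] (B : Q → Q → Set M) (X : Set Q) : Q → Q → M → Prop
  | edge {p q : Q} {m : M} : m ∈ B p q → Plus B X p q m
  | trans {p r q : Q} {m n : M} : r ∈ X → Plus B X p r m → Plus B X r q n → Plus B X p q (m + n)

lemma Plus.mono {Q M : Type} [AddCommMonoid M] {B : Q → Q → Set M} {X Y : Set Q} (hXY : X ⊆ Y)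
    {p q : Q} {m : M} (h : Plus B X p q m) : Plus B Y p q m := by
  induction h with
  | edge h => exact Plus.edge h
  | trans hr _ _ ih1 ih2 => exact Plus.trans (hXY hr) ih1 ih2

lemma plus_insert {Q M : Type} [AddCommMonoid M] (B : Q → Q → Set M) (X : Set Q) (r p q : Q) :
    {m | Plus B (insert r X) p q m} = {m | Plus B X p q m} ∪
      ({m | Plus B X p r m} + (AddSubmonoid.closure {m | Plus B X r r m} : Set M) +
        {m | Plus B X r q m}) := by
  ext m
  constructor
  · intro h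
    change Plus B (insert r X) p q m at h
    have key : Plus B X p q m ∨ ∃ a c d, Plus B X p r a ∧
        c ∈ AddSubmonoid.closure {m | Plus B X r r m} ∧ Plus B X r q d ∧ m = a + c + d := by
      induction h with
      | edge h => exact Or.inl (Plus.edge h)
      | @trans p r' q m n hr _ _ ih1 ih2 =>
        rcases hr with rfl | hr
        · right
          rcases ih1 with h1 | ⟨a, c, d, ha, hc, hd, rfl⟩ <;>
            rcases ih2 with h2 | ⟨a', c', d', ha', hc', hd', rfl⟩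
          · exact ⟨m, 0, n, h1, zero_mem _, h2, by simp⟩
          · exact ⟨m, a' + c', d', h1, add_mem (AddSubmonoid.subset_closure ha') hc', hd',
              by simp only [add_assoc]⟩
          · exact ⟨a, c + d, n, ha, add_mem hc (AddSubmonoid.subset_closure hd), h2,
              by simp only [add_assoc]⟩
          · exact ⟨a, c + d + a' + c', d', ha, add_mem (add_mem (add_mem hc
              (AddSubmonoid.subset_closure hd)) (AddSubmonoid.subset_closure ha')) hc', hd',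
              by simp only [add_assoc]⟩
        · rcases ih1 with h1 | ⟨a, c, d, ha, hc, hd, rfl⟩ <;>
            rcases ih2 with h2 | ⟨a', c', d', ha', hc', hd', rfl⟩
          · exact Or.inl (Plus.trans hr h1 h2)
          · exact Or.inr ⟨m + a', c', d', Plus.trans hr h1 ha', hc', hd',
              by simp only [add_assoc]⟩
          · exact Or.inr ⟨a, c, d + n, ha, hc, Plus.trans hr hd h2, by simp only [add_assoc]⟩
          · exact Or.inr ⟨a, c + (d + a') + c', d', ha, add_mem (add_mem hc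
              (AddSubmonoid.subset_closure (Plus.trans hr hd ha'))) hc', hd',
              by simp only [add_assoc]⟩
    rcases key with h | ⟨a, c, d, ha, hc, hd, rfl⟩
    · exact Or.inl h
    · exact Or.inr (Set.add_mem_add (Set.add_mem_add ha hc) hd)
  · rintro (h | ⟨_, ⟨a, ha, c, hc, rfl⟩, d, hd, rfl⟩)
    · exact Plus.mono (Set.subset_insert _ _) h
    · have h1 : Plus B (insert r X) p r (a + c) := by
        induction hc using AddSubmonoid.closure_induction generalizing a with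
        | mem x hx =>
          exact Plus.trans (Set.mem_insert _ _) (Plus.mono (Set.subset_insert _ _) ha)
            (Plus.mono (Set.subset_insert _ _) hx)
        | zero => simpa using Plus.mono (Set.subset_insert _ _) ha
        | add x y hx hy ihx ihy =>
          clear ihy
          have k : ∀ y ∈ AddSubmonoid.closure {m | Plus B X r r m}, ∀ a,
              Plus B (insert r X) p r a → Plus B (insert r X) p r (a + y) := by
            intro y hy
            induction hy using AddSubmonoid.closure_induction with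
            | mem x hx =>
              exact fun a ha => Plus.trans (Set.mem_insert _ _) ha
                (Plus.mono (Set.subset_insert _ _) hx)
            | zero => exact fun a ha => by simpa using ha
            | add x y _ _ ihx ihy =>
              exact fun a ha => by rw [← add_assoc]; exact ihy _ (ihx _ ha)
          rw [← add_assoc]
          exact k y hy _ (ihx a ha)
      exact Plus.trans (Set.mem_insert _ _) h1 (Plus.mono (Set.subset_insert _ _) hd)

lemma plus_semilinear {Q M : Type} [AddCommMonoid M] (B : Q → Q → Set M)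
    (hB : ∀ p q, IsSemilinearSet (B p q)) (X : Set Q) (hX : X.Finite) :
    ∀ p q, IsSemilinearSet {m | Plus B X p q m} := by
  induction X, hX using Set.Finite.induction_on with
  | empty =>
    intro p q
    have : {m | Plus B ∅ p q m} = B p q := by
      ext m
      constructor
      · intro h
        change Plus B ∅ p q m at h
        cases h with
        | edge h => exact h
        | trans hr _ _ => exact absurd hr (Set.notMem_empty _)
      · exact Plus.edge
    rw [this]; exact hB p q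
  | @insert r X _ _ ih =>
    intro p q
    rw [plus_insert]
    exact (ih p q).union (((ih p r).add (ih r r).closure).add (ih r q))

lemma path_semilinear {Q B : Type} {E : Q → Option B → ℕ → Q → Prop} {X : Set Q}
    (hX : X.Finite) (hcl : ∀ p o w p', p ∈ X → E p o w p' → p' ∈ X)
    (hw : ∀ p o w p', E p o w p' → w ≤ 1) (b : B) (p : Q) (hp : p ∈ X) (q : Q) :
    IsSemilinearSet {m : ℕ × ℕ | Path E p (List.replicate m.1 b) m.2 q} := by
  let Bs : Q → Q → Set (ℕ × ℕ) := fun p q =>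
    {m | (m.1 = 0 ∧ E p none m.2 q) ∨ (m.1 = 1 ∧ E p (some b) m.2 q)}
  have hBs : ∀ p q, IsSemilinearSet (Bs p q) := by
    intro p q
    apply IsSemilinearSet.of_finite
    refine ((Set.finite_le_nat 1).prod (Set.finite_le_nat 1)).subset ?_
    rintro m (⟨h1, h2⟩ | ⟨h1, h2⟩)
    · exact ⟨by simp [h1], hw _ _ _ _ h2⟩
    · exact ⟨by simp [h1], hw _ _ _ _ h2⟩
  have e : {m : ℕ × ℕ | Path E p (List.replicate m.1 b) m.2 q} =
      {m | p = q ∧ m = 0} ∪ {m | Plus Bs X p q m} := by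
    ext m
    constructor
    · intro h
      have key : ∀ (p q : Q) (u : List B) (s : ℕ), Path E p u s q → p ∈ X → ∀ n,
          u = List.replicate n b → (p = q ∧ ((n, s) : ℕ × ℕ) = 0) ∨ Plus Bs X p q (n, s) := by
        intro p q u s h
        induction h with
        | nil q =>
          intro _ n hn
          left
          rcases n with _ | n
          · exact ⟨rfl, rfl⟩
          · simp [List.replicate_succ] at hn
        | @eps p p' q w s u he _ ih =>
          intro hp n hn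
          right
          have h1 : Plus Bs X p p' (0, w) := Plus.edge (Or.inl ⟨rfl, he⟩)
          rcases ih (hcl _ _ _ _ hp he) n hn with ⟨rfl, h0⟩ | h2
          · simp only [Prod.mk_eq_zero] at h0
            obtain ⟨rfl, rfl⟩ := h0
            exact h1
          · simpa using Plus.trans (hcl _ _ _ _ hp he) h1 h2
        | @sym p p' q w s c u he _ ih =>
          intro hp n hn
          right
          rcases n with _ | n
          · simp at hn
          rw [List.replicate_succ, List.cons.injEq] at hn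
          obtain ⟨rfl, hn⟩ := hn
          have h1 : Plus Bs X p p' (1, w) := Plus.edge (Or.inr ⟨rfl, he⟩)
          rcases ih (hcl _ _ _ _ hp he) n hn with ⟨rfl, h0⟩ | h2
          · simp only [Prod.mk_eq_zero] at h0
            obtain ⟨rfl, rfl⟩ := h0
            exact h1
          · simpa [add_comm] using Plus.trans (hcl _ _ _ _ hp he) h1 h2
      exact key p q _ _ h hp m.1 rfl
    · rintro (⟨rfl, rfl⟩ | h)
      · exact Path.nil _
      · change Plus Bs X p q m at h
        change Path E p (List.replicate m.1 b) m.2 q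
        clear hp
        induction h with
        | @edge p q m h =>
          rcases h with ⟨h1, h2⟩ | ⟨h1, h2⟩
          · rw [h1]; simpa using Path.eps h2 (Path.nil q)
          · rw [h1]; simpa using Path.sym h2 (Path.nil q)
        | trans _ _ _ ih1 ih2 =>
          rw [Prod.fst_add, Prod.snd_add, List.replicate_add]
          exact ih1.trans ih2
  rw [e]
  refine IsSemilinearSet.union ?_ (plus_semilinear Bs hBs X hX p q)
  apply IsSemilinearSet.of_finite
  exact (Set.finite_singleton 0).subset (fun m hm => hm.2)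

/-- the word with blocks of letters -/
def blocks {B : Type} {k : ℕ} (a : Fin k → B) (x : Fin k → ℕ) : List B :=
  (List.ofFn fun i => List.replicate (x i) (a i)).flatten

lemma blocks_succ {B : Type} {k : ℕ} (a : Fin (k + 1) → B) (x : Fin (k + 1) → ℕ) :
    blocks a x = List.replicate (x 0) (a 0) ++ blocks (fun i => a i.succ) (fun i => x i.succ) := by
  simp [blocks, List.ofFn_succ]

lemma components {Q B : Type} {E : Q → Option B → ℕ → Q → Prop} {X : Set Q}
    (hX : X.Finite) (hcl : ∀ p o w p', p ∈ X → E p o w p' → p' ∈ X)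
    (hw : ∀ p o w p', E p o w p' → w ≤ 1) (k : ℕ) : ∀ (a : Fin (k + 1) → B) (p : Q) (_ : p ∈ X)
      (q : Q), ∃ 𝒞 : Set (Fin (k + 1) → Set (ℕ × ℕ)), 𝒞.Finite ∧
        (∀ c ∈ 𝒞, ∀ l, IsLinearSet (c l)) ∧ ∀ (x : Fin (k + 1) → ℕ) (s : ℕ),
          Path E p (blocks a x) s q ↔
            ∃ c ∈ 𝒞, ∃ σ : Fin (k + 1) → ℕ, (∀ l, (x l, σ l) ∈ c l) ∧ ∑ l, σ l = s := by
  induction k with
  | zero =>
    intro a p hp q
    obtain ⟨𝒮, h1, h2, h3⟩ := path_semilinear hX hcl hw (a 0) p hp q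
    refine ⟨(fun R _ => R) '' 𝒮, h1.image _, ?_, fun x s => ?_⟩
    · rintro _ ⟨R, hR, rfl⟩ l
      exact h2 R hR
    · have : blocks a x = List.replicate (x 0) (a 0) := by simp [blocks]
      rw [this]
      have h4 := Set.ext_iff.mp h3 (x 0, s)
      simp only [Set.mem_setOf_eq, Set.mem_sUnion] at h4
      rw [h4]
      constructor
      · rintro ⟨R, hR, hx⟩
        refine ⟨_, ⟨R, hR, rfl⟩, fun _ => s, fun l => ?_, by simp⟩
        rw [Fin.fin_one_eq_zero l]; exact hx
      · rintro ⟨_, ⟨R, hR, rfl⟩, σ, hσ, rfl⟩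
        exact ⟨R, hR, by simpa using hσ 0⟩
  | succ k ih =>
    intro a p hp q
    choose 𝒮 h1 h2 h3 using fun r => path_semilinear hX hcl hw (a 0) p hp r
    choose! 𝒟 g1 g2 g3 using fun r hr => ih (fun i => a i.succ) r hr q
    refine ⟨⋃ r ∈ X, Set.image2 (fun R c => Fin.cons R c) (𝒮 r) (𝒟 r),
      hX.biUnion fun r hr => (h1 r).image2 _ (g1 r hr), ?_, fun x s => ?_⟩
    · intro c hc l
      simp only [Set.mem_iUnion] at hc
      obtain ⟨r, hr, R, hR, d, hd, rfl⟩ := hc
      refine Fin.cases ?_ (fun l => ?_) l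
      · simpa using h2 r R hR
      · simpa using g2 r hr d hd l
    · rw [blocks_succ]
      constructor
      · intro h
        obtain ⟨r, s1, s2, p1, p2, rfl⟩ := h.split _ _ rfl
        have hr := p1.mem hcl hp
        have h4 := (Set.ext_iff.mp (h3 r) (x 0, s1)).mp p1
        obtain ⟨R, hR, hx⟩ := h4
        obtain ⟨d, hd, σ, hσ, rfl⟩ := (g3 r hr _ _).mp p2
        refine ⟨Fin.cons R d, Set.mem_biUnion hr ⟨R, hR, d, hd, rfl⟩, Fin.cons s1 σ,
          fun l => ?_, by simp [Fin.sum_univ_succ]⟩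
        refine Fin.cases ?_ (fun l => ?_) l
        · simpa using hx
        · simpa using hσ l
      · rintro ⟨c, hc, σ, hσ, rfl⟩
        simp only [Set.mem_iUnion] at hc
        obtain ⟨r, hr, R, hR, d, hd, rfl⟩ := hc
        rw [Fin.sum_univ_succ]
        refine Path.trans (r := r) ?_ ?_
        · exact (Set.ext_iff.mp (h3 r) (x 0, σ 0)).mpr ⟨R, hR, by simpa using hσ 0⟩
        · exact (g3 r hr _ _).mpr ⟨d, hd, fun l => σ l.succ, fun l => by simpa using hσ l.succ, rfl⟩

lemma dd_components {S : Set ℕ} {B : Type} [Finite B] {L : Language B} (hL : L ∈ DD S B) (k : ℕ)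
    (a : Fin (k + 1) → B) : ∃ 𝒞 : Set (Fin (k + 1) → Set (ℕ × ℕ)), 𝒞.Finite ∧
        (∀ c ∈ 𝒞, ∀ l, IsLinearSet (c l)) ∧ ∀ x : Fin (k + 1) → ℕ,
          blocks a x ∈ L ↔
            ∃ c ∈ 𝒞, ∃ σ : Fin (k + 1) → ℕ, (∀ l, (x l, σ l) ∈ c l) ∧ ∑ l, σ l ∈ S := by
  obtain ⟨Q, E, i, F, X, hX, hi, hcl, hw, hL⟩ := hL
  choose 𝒟 g1 g2 g3 using fun q => components hX hcl hw k a i hi q
  refine ⟨⋃ q ∈ X ∩ F, 𝒟 q, (hX.inter_of_left F).biUnion fun q _ => g1 q, ?_, fun x => ?_⟩
  · intro c hc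
    simp only [Set.mem_iUnion] at hc
    obtain ⟨q, _, hc⟩ := hc
    exact g2 q c hc
  · rw [hL]
    constructor
    · rintro ⟨f, hf, s, hs, hp⟩
      obtain ⟨c, hc, σ, hσ, rfl⟩ := (g3 f x s).mp hp
      exact ⟨c, Set.mem_biUnion ⟨hp.mem hcl hi, hf⟩ hc, σ, hσ, hs⟩
    · rintro ⟨c, hc, σ, hσ, hs⟩
      simp only [Set.mem_iUnion] at hc
      obtain ⟨q, hq, hc⟩ := hc
      exact ⟨q, hq.2, _, hs, (g3 q x _).mpr ⟨c, hc, σ, hσ, rfl⟩⟩

end Pool.Agent.P.MP_3a8f7c_lc
end

-- part Pool.Agent.P.MP_3a8f7c_lc.Min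
section

set_option autoImplicit false

namespace Pool.Agent.P.MP_3a8f7c_lc

open Filter Nat Function

lemma cone_isCone {A : Type} [Finite A] (L : Language A) : IsCone (cone L) :=
  ⟨fun A' B _ _ h K hK C hC hL => hC.1 A' B h K (hK C hC hL),
    fun A' B _ _ h K hK C hC hL => hC.2.1 A' B h K (hK C hC hL),
    fun A' _ K R hK hR C hC hL => hC.2.2 A' K R (hK C hC hL) hR⟩

lemma self_mem_cone {A : Type} [Finite A] (L : Language A) : L ∈ cone L A := fun _ _ h => h

lemma regular_mem_cone {A : Type} [Finite A] (L : Language A) (u : List A) (hu : u ∈ L)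
    (B : Type) [Finite B] (R : Language B) (hR : R.IsRegular) : R ∈ cone L B := by
  obtain ⟨h1, h2, h3⟩ := cone_isCone L
  have a1 := h1 A A (fun _ => []) L (self_mem_cone L)
  have a2 := h2 B A (fun _ => []) _ a1
  have a3 := h3 B _ R a2 hR
  refine (congrArg (fun K : Language B => K ∈ cone L B) ?_).mpr a3
  ext w
  constructor
  · intro hw
    exact ⟨⟨u, hu, by rw [List.flatMap_eq_nil_iff.mpr fun _ _ => rfl,
      List.flatMap_eq_nil_iff.mpr fun _ _ => rfl]⟩, hw⟩
  · exact fun hw => hw.2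

/-- product of powers of words -/
def bigW {A : Type} {k : ℕ} (w : Fin k → List A) (x : Fin k → ℕ) : List A :=
  (List.ofFn fun i => (List.replicate (x i) (w i)).flatten).flatten

lemma bigW_succ {A : Type} {k : ℕ} (w : Fin (k + 1) → List A) (x : Fin (k + 1) → ℕ) :
    bigW w x = pw (w 0) (x 0) ++ bigW (fun i => w i.succ) (fun i => x i.succ) := by
  simp [bigW, pw, List.ofFn_succ]

lemma blocks_flatMap {A B : Type} (h : B → List A) (k : ℕ) : ∀ (a : Fin k → B) (x : Fin k → ℕ),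
    (blocks a x).flatMap h = bigW (fun i => h (a i)) x := by
  induction k with
  | zero => intro a x; simp [blocks, bigW]
  | succ k ih =>
    intro a x
    rw [blocks_succ, bigW_succ, List.flatMap_append, ih, List.flatMap_replicate]
    rfl

lemma pw_add {A : Type} (e : List A) (m n : ℕ) : pw e (m + n) = pw e m ++ pw e n := by
  unfold pw
  rw [List.replicate_add, List.flatten_append]

lemma pw_mul {A : Type} (e : List A) (m n : ℕ) : pw e (m * n) = pw (pw e n) m := by
  induction m with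
  | zero => simp [pw_zero]
  | succ m ih => rw [pw_succ, ← ih, ← pw_add]; congr 1; ring

lemma bigW_update {A : Type} (k : ℕ) : ∀ (w : Fin k → List A) (x : Fin k → ℕ) (l : Fin k),
    ∃ pre suf : List A, ∀ m, bigW w (update x l (x l + m)) = pre ++ pw (w l) m ++ suf := by
  induction k with
  | zero => intro w x l; exact l.elim0
  | succ k ih =>
    intro w x l
    refine Fin.cases ?_ (fun l => ?_) l
    · refine ⟨pw (w 0) (x 0), bigW (fun i => w i.succ) (fun i => x i.succ), fun m => ?_⟩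
      rw [bigW_succ, update_self, pw_add]
      congr 2
    · obtain ⟨pre, suf, h⟩ := ih (fun i => w i.succ) (fun i => x i.succ) l
      refine ⟨pw (w 0) (x 0) ++ pre, suf, fun m => ?_⟩
      rw [bigW_succ, update_of_ne (Fin.succ_ne_zero l).symm, List.append_assoc, List.append_assoc,
        ← List.append_assoc pre, ← h m]
      congr 2
      funext i
      by_cases hi : i = l
      · subst hi; simp
      · rw [update_of_ne hi, update_of_ne (fun h => hi (Fin.succ_injective _ h))]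

lemma blocks_sorted {k : ℕ} (x : Fin k → ℕ) : (blocks id x).Pairwise (· ≤ ·) := by
  unfold blocks
  rw [List.pairwise_flatten]
  refine ⟨?_, ?_⟩
  · intro l hl
    obtain ⟨i, rfl⟩ := List.mem_ofFn.mp hl
    simp [List.pairwise_replicate]
  · rw [List.pairwise_ofFn]
    intro i j hij a ha b hb
    rw [List.eq_of_mem_replicate ha, List.eq_of_mem_replicate hb]
    exact hij.le

lemma blocks_count {k : ℕ} (x : Fin k → ℕ) (i : Fin k) : (blocks id x).count i = x i := by
  unfold blocks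
  rw [List.count_flatten, List.map_ofFn, List.sum_ofFn]
  simp [List.count_replicate]

lemma eq_blocks {k : ℕ} (u : List (Fin k)) (hu : u.Pairwise (· ≤ ·)) :
    u = blocks id (fun i => u.count i) := by
  apply List.Perm.eq_of_pairwise' hu (blocks_sorted _)
  rw [List.perm_iff_count]
  intro a
  rw [blocks_count]

lemma count_regular {k : ℕ} (K : Set (Fin k → ℕ)) (n : ℕ)
    (hK : ∀ x x' : Fin k → ℕ, (∀ l, Eqv n (x l) (x' l)) → x ∈ K → x' ∈ K) :
    Language.IsRegular ({u | (fun i => u.count i) ∈ K} : Language (Fin k)) := by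
  apply Language.IsRegular.of_finite_range_leftQuotient
  have hfin : (Set.pi Set.univ fun _ : Fin k => Set.Iio (n + n !)).Finite :=
    Set.Finite.pi fun _ => Set.finite_Iio _
  refine (hfin.image (fun r : Fin k → ℕ =>
    ({y | (fun i => r i + y.count i) ∈ K} : Language (Fin k)))).subset ?_
  rintro _ ⟨u, rfl⟩
  choose r h1 h2 using fun i : Fin k => exists_rep n (u.count i)
  refine ⟨r, fun i _ => h1 i, ?_⟩
  ext y
  change (fun i => r i + y.count i) ∈ K ↔ (fun i => (u ++ y).count i) ∈ K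
  simp only [List.count_append]
  exact ⟨hK _ _ fun i => (h2 i).symm.add (Eqv.refl _ _), hK _ _ fun i => (h2 i).add (Eqv.refl _ _)⟩

lemma regular_of_rec {A : Type} [Finite A] {k : ℕ} (w : Fin k → List A) (L : Language A)
    (hb : ∀ u ∈ L, ∃ x, u = bigW w x) (n : ℕ)
    (hK : ∀ x x' : Fin k → ℕ, (∀ l, Eqv n (x l) (x' l)) → bigW w x ∈ L → bigW w x' ∈ L) :
    L.IsRegular := by
  have h1 := (chain_regular (fun a b : Fin k => a ≤ b)).inf
    (count_regular {x | bigW w x ∈ L} n hK)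
  have h2 := regular_image w h1
  refine (congrArg Language.IsRegular ?_).mpr h2
  ext u
  constructor
  · intro hu
    obtain ⟨x, rfl⟩ := hb u hu
    refine ⟨blocks id x, ⟨?_, ?_⟩, blocks_flatMap w k id x⟩
    · exact List.isChain_iff_pairwise.mpr (blocks_sorted x)
    · change bigW w (fun i => (blocks id x).count i) ∈ L
      simpa only [blocks_count] using hu
  · rintro ⟨v, ⟨h3, h4⟩, rfl⟩
    have h5 := eq_blocks v (List.isChain_iff_pairwise.mp h3)
    rw [h5, blocks_flatMap]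
    exact h4

/-- the control automaton -/
def ctrl (S : Set ℕ) [DecidablePred (· ∈ S)] (N : ℕ) : DFA (Fin 3 ⊕ Fin N) (Fin 4) where
  step q a :=
    if q = 0 then (match a with
      | Sum.inl c => if c = 0 then 1 else 3
      | Sum.inr i => if i.val ∈ S then 2 else 3)
    else if q = 1 then (match a with
      | Sum.inl c => if c = 1 then 1 else if c = 2 then 2 else 3
      | Sum.inr _ => 3)
    else 3
  start := 0
  accept := {2}

lemma ctrl_dead (S : Set ℕ) [DecidablePred (· ∈ S)] (N : ℕ) (u : List (Fin 3 ⊕ Fin N)) :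
    (ctrl S N).evalFrom 3 u = 3 := by
  induction u with
  | nil => rfl
  | cons a u ih => exact ih

lemma ctrl_two (S : Set ℕ) [DecidablePred (· ∈ S)] (N : ℕ) (u : List (Fin 3 ⊕ Fin N))
    (h : (ctrl S N).evalFrom 2 u = 2) : u = [] := by
  rcases u with _ | ⟨a, u⟩
  · rfl
  · have : (ctrl S N).evalFrom 2 (a :: u) = 3 := ctrl_dead S N u
    rw [this] at h
    exact absurd h (by decide)

lemma ctrl_one (S : Set ℕ) [DecidablePred (· ∈ S)] (N : ℕ) (u : List (Fin 3 ⊕ Fin N))
    (h : (ctrl S N).evalFrom 1 u = 2) : ∃ t, u = List.replicate t (Sum.inl 1) ++ [Sum.inl 2] := by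
  induction u with
  | nil => exact absurd (show (1 : Fin 4) = 2 from h) (by decide)
  | cons a u ih =>
    rcases a with c | i
    · fin_cases c
      · have : (ctrl S N).evalFrom 1 (Sum.inl 0 :: u) = 3 := ctrl_dead S N u
        exact absurd (this.symm.trans h) (by decide)
      · obtain ⟨t, rfl⟩ := ih h
        exact ⟨t + 1, rfl⟩
      · have := ctrl_two S N u h
        subst this
        exact ⟨0, rfl⟩
    · have : (ctrl S N).evalFrom 1 (Sum.inr i :: u) = 3 := ctrl_dead S N u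
      exact absurd (this.symm.trans h) (by decide)

lemma ctrl_one' (S : Set ℕ) [DecidablePred (· ∈ S)] (N t : ℕ) :
    (ctrl S N).evalFrom 1 (List.replicate t (Sum.inl 1) ++ [Sum.inl 2]) = 2 := by
  induction t with
  | zero => rfl
  | succ t ih => exact ih

lemma mem_ctrl (S : Set ℕ) [DecidablePred (· ∈ S)] (N : ℕ) (u : List (Fin 3 ⊕ Fin N)) :
    u ∈ (ctrl S N).accepts ↔ (∃ t, u = Sum.inl 0 :: (List.replicate t (Sum.inl 1) ++ [Sum.inl 2])) ∨
      ∃ i : Fin N, i.val ∈ S ∧ u = [Sum.inr i] := by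
  change (ctrl S N).evalFrom 0 u = 2 ↔ _
  constructor
  · intro h
    rcases u with _ | ⟨c | i, u⟩
    · exact absurd (show (0 : Fin 4) = 2 from h) (by decide)
    · fin_cases c
      · obtain ⟨t, rfl⟩ := ctrl_one S N u h
        exact Or.inl ⟨t, rfl⟩
      · have : (ctrl S N).evalFrom 0 (Sum.inl 1 :: u) = 3 := ctrl_dead S N u
        exact absurd (this.symm.trans h) (by decide)
      · have : (ctrl S N).evalFrom 0 (Sum.inl 2 :: u) = 3 := ctrl_dead S N u
        exact absurd (this.symm.trans h) (by decide)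
    · by_cases hi : i.val ∈ S
      · have e : (ctrl S N).step 0 (Sum.inr i) = 2 := by simp [ctrl, hi]
        rw [DFA.evalFrom_cons, e] at h
        rw [ctrl_two S N u h]
        exact Or.inr ⟨i, hi, rfl⟩
      · have e : (ctrl S N).step 0 (Sum.inr i) = 3 := by simp [ctrl, hi]
        rw [DFA.evalFrom_cons, e, ctrl_dead] at h
        exact absurd h (by decide)
  · rintro (⟨t, rfl⟩ | ⟨i, hi, rfl⟩)
    · exact ctrl_one' S N t
    · have e : (ctrl S N).step 0 (Sum.inr i) = 2 := by simp [ctrl, hi]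
      rw [DFA.evalFrom_cons, e]
      rfl

lemma gen_mem_cone {A : Type} [Finite A] {k : ℕ} (w : Fin k → List A) (L : Language A)
    (hG : Gen {x | bigW w x ∈ L}) : lenLang SS Unit ∈ cone L Unit := by
  classical
  obtain ⟨x, l, P, Q, s, N, hx, h1, h2⟩ := hG
  obtain ⟨pre, suf, hps⟩ := bigW_update k w x l
  obtain ⟨c1, c2, c3⟩ := cone_isCone L
  let h : Fin 3 ⊕ Fin N → List A := fun a => match a with
    | Sum.inl c => if c = 0 then pre else if c = 1 then pw (w l) P else suf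
    | Sum.inr _ => bigW w x
  let g : Fin 3 ⊕ Fin N → List Unit := fun a => match a with
    | Sum.inl c => if c = 0 then List.replicate s () else if c = 1 then List.replicate Q () else []
    | Sum.inr i => List.replicate i.val ()
  have a1 := c2 _ A h L (self_mem_cone L)
  have a2 := c3 _ _ _ a1 ⟨Fin 4, inferInstance, ctrl SS N, rfl⟩
  have a3 := c1 _ Unit g _ a2
  refine (congrArg (fun K : Language Unit => K ∈ cone L Unit) ?_).mpr a3
  have eh : ∀ t, (Sum.inl 0 :: (List.replicate t (Sum.inl 1) ++ [Sum.inl 2]) :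
      List (Fin 3 ⊕ Fin N)).flatMap h = bigW w (update x l (x l + t * P)) := by
    intro t
    rw [hps, pw_mul]
    simp [h, List.flatMap_replicate, pw]
  have eg : ∀ t, ((Sum.inl 0 :: (List.replicate t (Sum.inl 1) ++ [Sum.inl 2]) :
      List (Fin 3 ⊕ Fin N)).flatMap g).length = s + t * Q := by
    intro t
    simp [g, List.flatMap_replicate]
  have hlen : ∀ u v : List Unit, u.length = v.length → u = v := by
    intro u v huv
    exact List.ext_getElem huv fun _ _ _ => rfl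
  ext u
  constructor
  · intro hu
    change u.length ∈ SS at hu
    by_cases hN : u.length < N
    · refine ⟨[Sum.inr ⟨u.length, hN⟩], ⟨?_, (mem_ctrl SS N _).mpr (Or.inr ⟨_, hu, rfl⟩)⟩, ?_⟩
      · change List.flatMap h _ ∈ L
        simpa [h] using hx
      · apply hlen; simp [g]
    · obtain ⟨t, ht⟩ := h2 _ hu (not_lt.mp hN)
      refine ⟨_, ⟨?_, (mem_ctrl SS N _).mpr (Or.inl ⟨t, rfl⟩)⟩, ?_⟩
      · change List.flatMap h _ ∈ L
        rw [eh]
        exact (h1 t).mpr (ht ▸ hu)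
      · apply hlen; rw [eg, ht]
  · rintro ⟨v, ⟨hv1, hv2⟩, rfl⟩
    change (v.flatMap g).length ∈ SS
    rcases (mem_ctrl SS N v).mp hv2 with ⟨t, rfl⟩ | ⟨i, hi, rfl⟩
    · change List.flatMap h _ ∈ L at hv1
      rw [eh] at hv1
      rw [eg]
      exact (h1 t).mp hv1
    · simpa [g] using hi

lemma lenLang_not_regular : ¬ (lenLang SS Unit).IsRegular := by
  apply not_regular _ (fun i => List.replicate i ())
  intro i j hij
  obtain ⟨s, hs, hle⟩ := SS_large (TT (j - i + 1) + i)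
  refine ⟨List.replicate (s - i) (), ?_⟩
  change ¬ (List.length _ ∈ SS ↔ List.length _ ∈ SS)
  simp only [List.length_append, List.length_replicate]
  rw [show i + (s - i) = s by omega, show j + (s - i) = s + (j - i) by omega]
  intro h
  have h1 := (hs (j - i + 1) (by omega)).uniq ((h.mp hs) (j - i + 1) (by omega))
  have h2 := (Nat.modEq_iff_dvd' (by omega)).mp h1
  have h3 := Nat.le_of_dvd (by omega) h2
  have h4 := Nat.self_le_factorial (j - i + 1)
  omega

theorem minimal (k : ℕ) (hk : 1 ≤ k) : MinimalForDegree (cone (lenLang SS Unit)) k := by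
  obtain ⟨k, rfl⟩ : ∃ k', k = k' + 1 := ⟨k - 1, by omega⟩
  rintro A _ L hL ⟨w, hw⟩
  have h1 : L ∈ DD SS A := hL _ (dd_isCone SS) (lenLang_mem_dd SS Unit)
  have h2 := (dd_isCone SS).2.1 (Fin (k + 1)) A w L h1
  obtain ⟨𝒞, hf, hl, h3⟩ := dd_components h2 k id
  have e : KK 𝒞 = {x | bigW w x ∈ L} := by
    ext x
    have e2 : (blocks id x).flatMap w = bigW w x := blocks_flatMap w (k + 1) id x
    rw [Set.mem_ofPred_eq, ← e2]
    exact (h3 x).symm
  rcases dichotomy hf hl with hG | ⟨n, hn⟩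
  · right
    rw [e] at hG
    have h4 := gen_mem_cone w L hG
    intro B _
    ext K
    exact ⟨fun hK C hC hS => hK C hC (hL C hC hS), fun hK C hC hS => hK C hC (h4 C hC hS)⟩
  · left
    rw [e] at hn
    exact regular_of_rec w L hw n hn

theorem main2 : ∃ L : Language Unit, ¬ L.IsRegular ∧ BoundedOfDegree 1 L ∧ IsCone (cone L) ∧
    L ∈ cone L Unit ∧ (∀ (B : Type) [Finite B] (R : Language B), R.IsRegular → R ∈ cone L B) ∧
    ∀ k : ℕ, 1 ≤ k → MinimalForDegree (cone L) k := by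
  refine ⟨lenLang SS Unit, lenLang_not_regular, ⟨fun _ => [()], fun u _ => ⟨fun _ => u.length, ?_⟩⟩,
    cone_isCone _, self_mem_cone _, ?_, minimal⟩
  · exact List.ext_getElem (by simp) fun _ _ _ => rfl
  · obtain ⟨s, hs, -⟩ := SS_large 0
    exact regular_mem_cone _ (List.replicate s ()) (by
      change List.length _ ∈ SS
      rwa [List.length_replicate])

end Pool.Agent.P.MP_3a8f7c_lc
end
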